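import Mathlib

/-!
# Single site computations on the circle `ℝ / 2π ℤ`
-/

open MeasureTheory ComplexConjugate
open scoped ComplexOrder

namespace Pool.Agent.helper71.XY

local instance fact2pi : Fact (0 < 2 * Real.pi) := ⟨by positivity⟩

/-- the circle `ℝ / 2π ℤ` -/
abbrev T : Type := AddCircle (2 * Real.pi)

/-- normalised invariant measure on the circle -/
noncomputable abbrev haar : Measure T := AddCircle.haarAddCircle

/-- `θ ↦ e^{iθ}` -/
noncomputable def e (θ : T) : ℂ := (AddCircle.toCircle θ : ℂ)

lemma e_eq_fourier (θ : T) : e θ = fourier 1 θ := by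
  rw [fourier_one]; rfl

lemma continuous_e : Continuous e := by
  have : e = fun θ => (fourier 1 : C(T, ℂ)) θ := by
    funext θ; exact e_eq_fourier θ
  rw [this]
  exact (fourier 1 : C(T, ℂ)).continuous

lemma e_add (a b : T) : e (a + b) = e a * e b := by
  simp [e, AddCircle.toCircle_add]

lemma e_neg (a : T) : e (-a) = conj (e a) := by
  have h : AddCircle.toCircle (-a) = (AddCircle.toCircle a)⁻¹ :=
    AddCircle.toCircle_neg a
  rw [e, h, Circle.coe_inv, Complex.inv_eq_conj (Circle.norm_coe _), e]

@[simp] lemma e_zero : e 0 = 1 := by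
  simp [e]

lemma e_mul_conj (a : T) : e a * conj (e a) = 1 := by
  rw [Complex.mul_conj, e]
  simp

lemma norm_e (a : T) : ‖e a‖ = 1 := by
  exact Circle.norm_coe _

lemma integral_fourier (n : ℤ) : ∫ θ, (fourier n : C(T, ℂ)) θ ∂haar = if n = 0 then 1 else 0 := by
  split_ifs with h
  · subst h
    have : ∀ θ : T, (fourier 0 : C(T, ℂ)) θ = 1 := fun θ => fourier_zero
    simp [this]
  · exact integral_eq_zero_of_add_right_eq_neg (μ := haar)
      (fourier_add_half_inv_index h (by positivity))

lemma e_pow (θ : T) (n : ℕ) : e θ ^ n = (fourier (n : ℤ) : C(T, ℂ)) θ := by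
  induction n with
  | zero =>
    rw [pow_zero, Nat.cast_zero]
    exact fourier_zero.symm
  | succ k ih => rw [Nat.cast_succ, fourier_add, ← ih, pow_succ, e_eq_fourier]

lemma e_pow_mul_conj_pow (θ : T) (n m : ℕ) :
    e θ ^ n * conj (e θ) ^ m = (fourier ((n : ℤ) - m) : C(T, ℂ)) θ := by
  rw [sub_eq_add_neg, fourier_add, fourier_neg, ← e_pow, ← e_pow, map_pow]

lemma integral_e_pow (n m : ℕ) :
    ∫ θ, e θ ^ n * conj (e θ) ^ m ∂haar = if n = m then 1 else 0 := by
  simp_rw [e_pow_mul_conj_pow, integral_fourier]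
  by_cases h : n = m
  · subst h; simp
  · have : ((n : ℤ) - m) ≠ 0 := by omega
    simp [h, this]

lemma e_pi : e ((Real.pi : ℝ) : T) = -1 := by
  rw [e, AddCircle.toCircle_apply_mk, Circle.coe_exp]
  have : 2 * Real.pi / (2 * Real.pi) * Real.pi = Real.pi := by
    field_simp
  rw [this, Complex.exp_pi_mul_I]

lemma trig_moment_nonneg (i j : ℕ) : 0 ≤ ∫ θ, (e θ).re ^ i * (e θ).im ^ j ∂haar := by
  have hneg : ∫ θ, (e θ).re ^ i * (e θ).im ^ j ∂haar
      = (-1) ^ j * ∫ θ, (e θ).re ^ i * (e θ).im ^ j ∂haar := by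
    rw [← integral_const_mul, ← integral_neg_eq_self]
    congr 1
    funext θ
    rw [e_neg]
    simp only [Complex.conj_re, Complex.conj_im]
    rw [neg_pow]
    ring
  have hpi : ∫ θ, (e θ).re ^ i * (e θ).im ^ j ∂haar
      = (-1) ^ (i + j) * ∫ θ, (e θ).re ^ i * (e θ).im ^ j ∂haar := by
    rw [← integral_const_mul, ← integral_add_right_eq_self _ ((Real.pi : ℝ) : T)]
    congr 1
    funext θ
    rw [e_add, e_pi]
    simp only [mul_neg, mul_one, Complex.neg_re, Complex.neg_im]
    rw [neg_pow, neg_pow (e θ).im]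
    ring
  rcases Nat.even_or_odd j with hj | hj
  · rcases Nat.even_or_odd i with hi | hi
    · exact integral_nonneg fun θ => mul_nonneg (hi.pow_nonneg _) (hj.pow_nonneg _)
    · rw [(hi.add_even hj).neg_one_pow] at hpi
      linarith
  · rw [hj.neg_one_pow] at hneg
    linarith

/-- the two-copy variable `X + conj X'` -/
noncomputable def eta (p : T × T) : ℂ := e p.1 + conj (e p.2)

/-- the two-copy variable `-i (X - conj X')` -/
noncomputable def xi (p : T × T) : ℂ := -Complex.I * (e p.1 - conj (e p.2))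

lemma continuous_eta : Continuous eta := by
  unfold eta
  exact (continuous_e.comp continuous_fst).add
    (Complex.continuous_conj.comp (continuous_e.comp continuous_snd))

lemma continuous_xi : Continuous xi := by
  unfold xi
  exact continuous_const.mul ((continuous_e.comp continuous_fst).sub
    (Complex.continuous_conj.comp (continuous_e.comp continuous_snd)))

/-- the properties of the single site measures which are used -/
structure Nice (μ : Measure T) : Prop where
  prob : IsProbabilityMeasure μ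
  neg : MeasurePreserving (fun θ => -θ) μ μ
  mom : ∀ a b c d : ℕ, 0 ≤ ∫ p, eta p ^ a * conj (eta p) ^ b * (xi p ^ c * conj (xi p) ^ d)
    ∂(μ.prod μ)

/-- `(a, b) ↦ (a + b, a - b)` -/
noncomputable def rot : T × T →+ T × T where
  toFun p := (p.1 + p.2, p.1 - p.2)
  map_zero' := by simp
  map_add' p q := by
    ext
    · simp only [Prod.fst_add, Prod.snd_add]; abel
    · simp only [Prod.fst_add, Prod.snd_add]; abel

lemma rot_surj : Function.Surjective rot := by
  rintro ⟨x, y⟩
  obtain ⟨x', rfl⟩ := QuotientAddGroup.mk_surjective x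
  obtain ⟨y', rfl⟩ := QuotientAddGroup.mk_surjective y
  refine ⟨((((x' + y') / 2 : ℝ) : T), (((x' - y') / 2 : ℝ) : T)), ?_⟩
  simp only [rot, AddMonoidHom.coe_mk, ZeroHom.coe_mk]
  rw [← AddCircle.coe_add, ← AddCircle.coe_sub]
  ext
  · change ((((x' + y') / 2 + (x' - y') / 2 : ℝ)) : T) = (x' : T)
    congr 1; ring
  · change ((((x' + y') / 2 - (x' - y') / 2 : ℝ)) : T) = (y' : T)
    congr 1; ring

lemma rot_mp : MeasurePreserving rot (haar.prod haar) (haar.prod haar) := by
  apply AddMonoidHom.measurePreserving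
  · change Continuous fun p : T × T => (p.1 + p.2, p.1 - p.2)
    fun_prop
  · exact rot_surj
  · rfl

lemma eta_rot (p : T × T) : eta (rot p) = ((2 * (e p.1).re : ℝ) : ℂ) * e p.2 := by
  simp only [eta, rot, AddMonoidHom.coe_mk, ZeroHom.coe_mk, sub_eq_add_neg, e_add, e_neg,
    map_mul, Complex.conj_conj]
  have : ((2 * (e p.1).re : ℝ) : ℂ) = e p.1 + conj (e p.1) := by
    rw [Complex.add_conj]
  rw [this]
  ring

lemma xi_rot (p : T × T) : xi (rot p) = ((2 * (e p.1).im : ℝ) : ℂ) * e p.2 := by
  simp only [xi, rot, AddMonoidHom.coe_mk, ZeroHom.coe_mk, sub_eq_add_neg, e_add, e_neg,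
    map_mul, Complex.conj_conj]
  have h : e p.1 - conj (e p.1) = ((2 * (e p.1).im : ℝ) : ℂ) * Complex.I := by
    rw [Complex.sub_conj]
  have h2 : ((2 * (e p.1).im : ℝ) : ℂ) = -Complex.I * (e p.1 - conj (e p.1)) := by
    rw [h]
    ring_nf
    rw [Complex.I_sq]
    ring
  rw [h2]
  ring

lemma nice_haar : Nice haar where
  prob := inferInstance
  neg := Measure.measurePreserving_neg _
  mom a b c d := by
    have hc : Continuous fun p : T × T =>
        eta p ^ a * conj (eta p) ^ b * (xi p ^ c * conj (xi p) ^ d) := by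
      have h1 := continuous_eta
      have h2 := continuous_xi
      fun_prop
    rw [← rot_mp.map_eq, integral_map rot_mp.measurable.aemeasurable
      hc.aestronglyMeasurable]
    have : ∀ p : T × T, eta (rot p) ^ a * conj (eta (rot p)) ^ b
          * (xi (rot p) ^ c * conj (xi (rot p)) ^ d)
        = ((2 ^ (a + b + c + d) * ((e p.1).re ^ (a + b) * (e p.1).im ^ (c + d)) : ℝ) : ℂ)
          * (e p.2 ^ (a + c) * conj (e p.2) ^ (b + d)) := by
      intro p
      rw [eta_rot, xi_rot]
      simp only [map_mul, Complex.conj_ofReal]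
      push_cast
      ring
    simp_rw [this]
    rw [integral_prod_mul (f := fun θ : T =>
      ((2 ^ (a + b + c + d) * ((e θ).re ^ (a + b) * (e θ).im ^ (c + d)) : ℝ) : ℂ))
      (g := fun θ : T => e θ ^ (a + c) * conj (e θ) ^ (b + d)), integral_e_pow,
      integral_complex_ofReal, integral_const_mul]
    apply mul_nonneg
    · rw [Complex.zero_le_real]
      exact mul_nonneg (by positivity) (trig_moment_nonneg _ _)
    · split_ifs <;> simp

lemma nice_dirac : Nice (Measure.dirac 0) where
  prob := inferInstance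
  neg := by
    refine ⟨measurable_neg, ?_⟩
    have := Measure.map_dirac' (f := fun θ : T => -θ) measurable_neg 0
    rw [this, neg_zero]
  mom a b c d := by
    have h : (Measure.dirac (0 : T)).prod (Measure.dirac (0 : T)) = Measure.dirac (0, 0) :=
      Measure.dirac_prod_dirac
    rw [h, integral_dirac]
    simp only [eta, xi, e_zero, map_one, sub_self, mul_zero, map_zero]
    apply mul_nonneg
    · have h2 : (1 + 1 : ℂ) = ((2 : ℝ) : ℂ) := by norm_num
      rw [h2, Complex.conj_ofReal]
      have h3 : (0 : ℂ) ≤ ((2 : ℝ) : ℂ) := by rw [Complex.zero_le_real]; norm_num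
      exact mul_nonneg (pow_nonneg h3 _) (pow_nonneg h3 _)
    · apply mul_nonneg <;> apply pow_nonneg <;> simp

end Pool.Agent.helper71.XY
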