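import Mathlib

/-!
# Positivity of integrals of exponentials
-/

open MeasureTheory
open scoped ComplexOrder

namespace Pool.Agent.helper71.XY

variable {Ω : Type*} [TopologicalSpace Ω] [CompactSpace Ω] [MeasurableSpace Ω]
  [OpensMeasurableSpace Ω] (μ : Measure Ω) [IsFiniteMeasure μ]

lemma exists_bound {F : Ω → ℂ} (hF : Continuous F) : ∃ C : ℝ, 0 ≤ C ∧ ∀ ω, ‖F ω‖ ≤ C := by
  obtain ⟨C, hC⟩ := isCompact_univ.exists_bound_of_continuousOn hF.continuousOn
  exact ⟨max C 0, le_max_right _ _, fun ω => (hC ω (Set.mem_univ _)).trans (le_max_left _ _)⟩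

lemma integrable_of_continuous {E : Type*} [NormedAddCommGroup E] [SecondCountableTopology E]
    {F : Ω → E} (hF : Continuous F) : Integrable F μ := by
  obtain ⟨C, hC⟩ := isCompact_univ.exists_bound_of_continuousOn hF.continuousOn
  exact Integrable.of_bound hF.aestronglyMeasurable C
    (Filter.Eventually.of_forall fun ω => hC ω (Set.mem_univ _))

lemma hasSum_integral_exp {F h : Ω → ℂ} (hF : Continuous F) (hh : Continuous h) :
    HasSum (fun n : ℕ => ∫ ω, F ω ^ n / (n.factorial : ℂ) * h ω ∂μ)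
      (∫ ω, Complex.exp (F ω) * h ω ∂μ) := by
  obtain ⟨C, hC0, hC⟩ := exists_bound hF
  obtain ⟨D, hD0, hD⟩ := exists_bound hh
  have hs : Summable fun n : ℕ => C ^ n / (n.factorial : ℝ) * D :=
    (Real.summable_pow_div_factorial C).mul_right D
  apply hasSum_integral_of_dominated_convergence (fun n _ => C ^ n / (n.factorial : ℝ) * D)
  · intro n
    have : Continuous fun ω => F ω ^ n / (n.factorial : ℂ) * h ω := by fun_prop
    exact this.aestronglyMeasurable
  · intro n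
    refine Filter.Eventually.of_forall fun ω => ?_
    rw [norm_mul, norm_div, norm_pow, Complex.norm_natCast]
    have := hC ω
    have := hD ω
    gcongr
  · exact Filter.Eventually.of_forall fun _ => hs
  · exact integrable_const _
  · refine Filter.Eventually.of_forall fun ω => ?_
    have := (NormedSpace.expSeries_div_hasSum_exp (𝔸 := ℂ) (F ω)).mul_right (h ω)
    rwa [← Complex.exp_eq_exp_ℂ] at this

variable {μ}

/-- the hypotheses on a class of functions -/
structure PosClass (μ : Measure Ω) (Good : (Ω → ℂ) → Prop) : Prop where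
  one : Good fun _ => 1
  mul : ∀ f g, Good f → Good g → Good fun ω => f ω * g ω
  cont : ∀ f, Good f → Continuous f
  pos : ∀ f, Good f → 0 ≤ ∫ ω, f ω ∂μ

variable {Good : (Ω → ℂ) → Prop}

lemma PosClass.prod (hP : PosClass μ Good) {κ : Type*} (s : Finset κ) (g : κ → Ω → ℂ)
    (hg : ∀ k, Good (g k)) : Good fun ω => ∏ k ∈ s, g k ω := by
  classical
  induction s using Finset.induction_on with
  | empty => simpa using hP.one
  | insert a s ha ih =>
    simp only [Finset.prod_insert ha]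
    exact hP.mul _ _ (hg a) ih

lemma PosClass.pow_term (hP : PosClass μ Good) {ι : Type*} [Fintype ι] (c : ι → ℂ)
    (g : ι → Ω → ℂ) (hg : ∀ i, Good (g i)) (h : Ω → ℂ) (hh : Good h) (n : ℕ) :
    ∫ ω, (∑ i, c i * g i ω) ^ n / (n.factorial : ℂ) * h ω ∂μ
      = ∑ w : Fin n → ι, (∏ k, c (w k)) * ((n.factorial : ℂ)⁻¹
          * ∫ ω, (∏ k, g (w k) ω) * h ω ∂μ) := by
  have h1 : ∀ ω, (∑ i, c i * g i ω) ^ n / (n.factorial : ℂ) * h ω
      = ∑ w : Fin n → ι, ((∏ k, c (w k)) * (n.factorial : ℂ)⁻¹)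
          * ((∏ k, g (w k) ω) * h ω) := by
    intro ω
    rw [Fintype.sum_pow, Finset.sum_div, Finset.sum_mul]
    refine Finset.sum_congr rfl fun w _ => ?_
    rw [Finset.prod_mul_distrib]
    ring
  simp_rw [h1]
  rw [integral_finset_sum]
  · refine Finset.sum_congr rfl fun w _ => ?_
    rw [integral_const_mul]
    ring
  · intro w _
    apply Integrable.const_mul
    exact integrable_of_continuous μ
      (hP.cont _ (hP.mul _ _ (hP.prod _ (fun k => g (w k)) fun k => hg _) hh))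

theorem PosClass.exp_bound (hP : PosClass μ Good) {ι : Type*} [Fintype ι] (c : ι → ℂ)
    (g : ι → Ω → ℂ) (hg : ∀ i, Good (g i)) (h : Ω → ℂ) (hh : Good h) :
    ‖∫ ω, Complex.exp (∑ i, c i * g i ω) * h ω ∂μ‖
        ≤ (∫ ω, Complex.exp (∑ i, ((‖c i‖ : ℝ) : ℂ) * g i ω) * h ω ∂μ).re
      ∧ 0 ≤ ∫ ω, Complex.exp (∑ i, ((‖c i‖ : ℝ) : ℂ) * g i ω) * h ω ∂μ := by
  have hc : ∀ d : ι → ℂ, Continuous fun ω => ∑ i, d i * g i ω := by
    intro d
    apply continuous_finset_sum
    intro i _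
    exact continuous_const.mul (hP.cont _ (hg i))
  have hA := hasSum_integral_exp μ (hc c) (hP.cont _ hh)
  have hB := hasSum_integral_exp μ (hc fun i => ((‖c i‖ : ℝ) : ℂ)) (hP.cont _ hh)
  have hpos : ∀ (n : ℕ) (w : Fin n → ι), 0 ≤ (n.factorial : ℂ)⁻¹
          * ∫ ω, (∏ k, g (w k) ω) * h ω ∂μ := by
    intro n w
    apply mul_nonneg
    · have : ((n.factorial : ℂ))⁻¹ = (((n.factorial : ℝ)⁻¹ : ℝ) : ℂ) := by push_cast; rfl
      rw [this, Complex.zero_le_real]
      positivity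
    · exact hP.pos _ (hP.mul _ _ (hP.prod _ (fun k => g (w k)) fun k => hg _) hh)
  have hB0 : ∀ n : ℕ, 0 ≤ ∫ ω, (∑ i, ((‖c i‖ : ℝ) : ℂ) * g i ω) ^ n / (n.factorial : ℂ)
      * h ω ∂μ := by
    intro n
    rw [hP.pow_term _ g hg h hh n]
    apply Finset.sum_nonneg
    intro w _
    apply mul_nonneg _ (hpos n w)
    apply Finset.prod_nonneg
    intro k _
    rw [Complex.zero_le_real]
    exact norm_nonneg _
  have hAB : ∀ n : ℕ, ‖∫ ω, (∑ i, c i * g i ω) ^ n / (n.factorial : ℂ) * h ω ∂μ‖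
      ≤ (∫ ω, (∑ i, ((‖c i‖ : ℝ) : ℂ) * g i ω) ^ n / (n.factorial : ℂ) * h ω ∂μ).re := by
    intro n
    rw [hP.pow_term _ g hg h hh n, hP.pow_term _ g hg h hh n, Complex.re_sum]
    refine (norm_sum_le _ _).trans (Finset.sum_le_sum fun w _ => ?_)
    rw [norm_mul, norm_prod]
    have h2 := hpos n w
    obtain ⟨r, hr⟩ : ∃ r : ℝ, (n.factorial : ℂ)⁻¹
          * ∫ ω, (∏ k, g (w k) ω) * h ω ∂μ = (r : ℂ) := by
      refine ⟨_, (Complex.eq_re_of_ofReal_le (r := 0) ?_)⟩
      simpa using h2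
    rw [hr] at h2 ⊢
    rw [Complex.zero_le_real] at h2
    rw [Complex.norm_real, Real.norm_of_nonneg h2]
    have h3 : ∏ k, (((‖c (w k)‖ : ℝ) : ℂ)) = ((∏ k, ‖c (w k)‖ : ℝ) : ℂ) := by
      push_cast; rfl
    rw [h3, ← Complex.ofReal_mul, Complex.ofReal_re]
  constructor
  · have hre := Complex.hasSum_re hB
    rw [← hA.tsum_eq, ← hre.tsum_eq]
    have hsn : Summable fun n : ℕ =>
        ‖∫ ω, (∑ i, c i * g i ω) ^ n / (n.factorial : ℂ) * h ω ∂μ‖ :=
      Summable.of_nonneg_of_le (fun _ => norm_nonneg _) hAB hre.summable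
    exact (norm_tsum_le_tsum_norm hsn).trans (hsn.tsum_le_tsum hAB hre.summable)
  · exact hB.nonneg hB0

end Pool.Agent.helper71.XY
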