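import Mathlib
import Pool.Agent.helper71.XY.Circ
import Pool.Agent.helper71.XY.Cone

/-!
# The twisted two-copy partition function
-/

open MeasureTheory ComplexConjugate
open scoped ComplexOrder

namespace Pool.Agent.helper71.XY

attribute [local instance] fact2pi

variable {V : Type} [Fintype V] [DecidableEq V] (μ : V → Measure T)
  [∀ x, IsProbabilityMeasure (μ x)]

/-- two-copy product measure -/
noncomputable abbrev P2 : Measure (V → T × T) := Measure.pi fun x => (μ x).prod (μ x)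

/-- the class of monomials -/
def Mono (f : (V → T × T) → ℂ) : Prop :=
  ∃ m : V → Fin 4 → ℕ, f = fun ω => ∏ x,
    (eta (ω x) ^ m x 0 * conj (eta (ω x)) ^ m x 1 *
      (xi (ω x) ^ m x 2 * conj (xi (ω x)) ^ m x 3))

lemma Mono.mul' {f g : (V → T × T) → ℂ} (hf : Mono f) (hg : Mono g) :
    Mono fun ω => f ω * g ω := by
  obtain ⟨m, rfl⟩ := hf
  obtain ⟨n, rfl⟩ := hg
  refine ⟨fun x t => m x t + n x t, ?_⟩
  funext ω
  rw [← Finset.prod_mul_distrib]
  refine Finset.prod_congr rfl fun x _ => ?_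
  simp only [pow_add]
  ring

lemma mono_one : Mono (V := V) fun _ => 1 := ⟨fun _ _ => 0, by simp⟩

lemma mono_single (z : V) (t : Fin 4) : Mono (V := V) fun ω =>
    (![eta (ω z), conj (eta (ω z)), xi (ω z), conj (xi (ω z))] t) := by
  refine ⟨fun x s => if x = z ∧ s = t then 1 else 0, ?_⟩
  funext ω
  rw [Finset.prod_eq_single z]
  · fin_cases t <;> simp
  · intro x _ hx
    simp [hx]
  · simp

lemma mono_eta (z : V) : Mono (V := V) fun ω => eta (ω z) := mono_single z 0
lemma mono_eta' (z : V) : Mono (V := V) fun ω => conj (eta (ω z)) := mono_single z 1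
lemma mono_xi (z : V) : Mono (V := V) fun ω => xi (ω z) := mono_single z 2
lemma mono_xi' (z : V) : Mono (V := V) fun ω => conj (xi (ω z)) := mono_single z 3

lemma posClass (hμ : ∀ x, Nice (μ x)) : PosClass (P2 μ) Mono where
  one := mono_one
  mul _ _ hf hg := hf.mul' hg
  cont f hf := by
    obtain ⟨m, rfl⟩ := hf
    have h1 := continuous_eta
    have h2 := continuous_xi
    fun_prop
  pos f hf := by
    obtain ⟨m, rfl⟩ := hf
    rw [P2, integral_fintype_prod_eq_prod (f := fun x (p : T × T) =>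
      (eta p ^ m x 0 * conj (eta p) ^ m x 1 * (xi p ^ m x 2 * conj (xi p) ^ m x 3)))]
    exact Finset.prod_nonneg fun x _ => (hμ x).mom _ _ _ _

/-- `cos (θ_x - θ_j) + cos (θ'_x - θ'_j)` -/
noncomputable def U (ω : V → T × T) (x j : V) : ℝ :=
  (e (ω x).1 * conj (e (ω j).1)).re + (e (ω x).2 * conj (e (ω j).2)).re

/-- `sin (θ_x + θ'_j) - sin (θ_j + θ'_x)` -/
noncomputable def D (ω : V → T × T) (x j : V) : ℝ :=
  (e (ω x).1 * e (ω j).2).im - (e (ω j).1 * e (ω x).2).im

/-- the twisted two-copy interaction -/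
noncomputable def TA (J A : V → V → ℝ) (ω : V → T × T) : ℝ :=
  (1 / 2) * ∑ x, ∑ j, J x j * (Real.cos (A x j) * U ω x j - Real.sin (A x j) * D ω x j)

/-- the generators -/
noncomputable def gen (i : V × V × Fin 4) (ω : V → T × T) : ℂ :=
  ![eta (ω i.1) * conj (eta (ω i.2.1)), conj (eta (ω i.1)) * eta (ω i.2.1),
    xi (ω i.1) * conj (xi (ω i.2.1)), conj (xi (ω i.1)) * xi (ω i.2.1)] i.2.2

/-- the coefficients -/
noncomputable def coef (J A : V → V → ℝ) (i : V × V × Fin 4) : ℂ :=
  ((J i.1 i.2.1 / 8 : ℝ) : ℂ) *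
    Complex.exp (((![A i.1 i.2.1, - A i.1 i.2.1, - A i.1 i.2.1, A i.1 i.2.1] i.2.2 : ℝ) : ℂ)
      * Complex.I)

lemma gen_mono (i : V × V × Fin 4) : Mono (gen i) := by
  obtain ⟨x, j, t⟩ := i
  fin_cases t
  · exact (mono_eta x).mul' (mono_eta' j)
  · exact (mono_eta' x).mul' (mono_eta j)
  · exact (mono_xi x).mul' (mono_xi' j)
  · exact (mono_xi' x).mul' (mono_xi j)

lemma term_eq (ω : V → T × T) (x j : V) (J a : ℝ) :
    ((J * (Real.cos a * U ω x j - Real.sin a * D ω x j) / 2 : ℝ) : ℂ)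
      = ((J / 8 : ℝ) : ℂ) * Complex.exp ((a : ℂ) * Complex.I)
            * (eta (ω x) * conj (eta (ω j)))
        + ((J / 8 : ℝ) : ℂ) * Complex.exp (((-a : ℝ) : ℂ) * Complex.I)
            * (conj (eta (ω x)) * eta (ω j))
        + ((J / 8 : ℝ) : ℂ) * Complex.exp (((-a : ℝ) : ℂ) * Complex.I)
            * (xi (ω x) * conj (xi (ω j)))
        + ((J / 8 : ℝ) : ℂ) * Complex.exp ((a : ℂ) * Complex.I)
            * (conj (xi (ω x)) * xi (ω j)) := by
  rw [Complex.exp_mul_I, Complex.exp_mul_I, ← Complex.ofReal_cos, ← Complex.ofReal_sin,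
    ← Complex.ofReal_cos, ← Complex.ofReal_sin, Real.cos_neg, Real.sin_neg]
  apply Complex.ext
  · simp only [U, D, eta, xi, Complex.ofReal_re, Complex.add_re, Complex.mul_re, Complex.sub_re,
      Complex.mul_im, Complex.add_im, Complex.sub_im, Complex.ofReal_im, Complex.I_re,
      Complex.I_im, Complex.conj_re, Complex.conj_im, Complex.neg_re, Complex.neg_im, map_add,
      map_sub, map_mul, Complex.conj_conj, map_neg, Complex.conj_I]
    ring
  · simp only [U, D, eta, xi, Complex.ofReal_re, Complex.add_re, Complex.mul_re, Complex.sub_re,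
      Complex.mul_im, Complex.add_im, Complex.sub_im, Complex.ofReal_im, Complex.I_re,
      Complex.I_im, Complex.conj_re, Complex.conj_im, Complex.neg_re, Complex.neg_im, map_add,
      map_sub, map_mul, Complex.conj_conj, map_neg, Complex.conj_I]
    ring

lemma TA_eq (J A : V → V → ℝ) (ω : V → T × T) :
    ((TA J A ω : ℝ) : ℂ) = ∑ i, coef J A i * gen i ω := by
  rw [Fintype.sum_prod_type]
  have h1 : TA J A ω = ∑ x, ∑ j,
      J x j * (Real.cos (A x j) * U ω x j - Real.sin (A x j) * D ω x j) / 2 := by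
    rw [TA, Finset.mul_sum]
    refine Finset.sum_congr rfl fun x _ => ?_
    rw [Finset.mul_sum]
    exact Finset.sum_congr rfl fun j _ => by ring
  rw [h1, Complex.ofReal_sum]
  refine Finset.sum_congr rfl fun x _ => ?_
  rw [Fintype.sum_prod_type, Complex.ofReal_sum]
  refine Finset.sum_congr rfl fun j _ => ?_
  rw [term_eq, Fin.sum_univ_four]
  simp [coef, gen]

lemma norm_coef (J A : V → V → ℝ) (hJ : ∀ x j, 0 ≤ J x j) (i : V × V × Fin 4) :
    ((‖coef J A i‖ : ℝ) : ℂ) = coef J (fun _ _ => 0) i := by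
  have h := hJ i.1 i.2.1
  rw [coef, norm_mul, Complex.norm_exp_ofReal_mul_I, Complex.norm_real,
    Real.norm_of_nonneg (by positivity), mul_one]
  obtain ⟨x, j, t⟩ := i
  fin_cases t <;> simp [coef]

lemma continuous_U (x j : V) : Continuous fun ω : V → T × T => U ω x j := by
  unfold U
  have := continuous_e
  fun_prop

lemma continuous_D (x j : V) : Continuous fun ω : V → T × T => D ω x j := by
  unfold D
  have := continuous_e
  fun_prop

lemma continuous_TA (J A : V → V → ℝ) : Continuous (TA J A) := by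
  unfold TA
  have h1 := continuous_U (V := V)
  have h2 := continuous_D (V := V)
  fun_prop

/-- the untwisted interaction -/
noncomputable abbrev T0 (J : V → V → ℝ) : (V → T × T) → ℝ := TA J fun _ _ => 0

theorem twist_le (hμ : ∀ x, Nice (μ x)) (J A : V → V → ℝ) (hJ : ∀ x j, 0 ≤ J x j) :
    ∫ ω, Real.exp (TA J A ω) ∂(P2 μ) ≤ ∫ ω, Real.exp (T0 J ω) ∂(P2 μ) := by
  have h := ((posClass μ hμ).exp_bound (coef J A) gen gen_mono (fun _ => 1) mono_one).1
  simp_rw [norm_coef J A hJ, ← TA_eq, mul_one, ← Complex.ofReal_exp] at h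
  rw [integral_complex_ofReal, integral_complex_ofReal, Complex.ofReal_re,
    Complex.norm_real] at h
  exact (le_abs_self _).trans h

theorem weight_nonneg (hμ : ∀ x, Nice (μ x)) (J : V → V → ℝ) (hJ : ∀ x j, 0 ≤ J x j)
    (h : (V → T × T) → ℂ) (hh : Mono h) :
    0 ≤ ∫ ω, Real.exp (T0 J ω) * (h ω).re ∂(P2 μ) := by
  have h1 := ((posClass μ hμ).exp_bound (coef J fun _ _ => 0) gen gen_mono h hh).2
  simp_rw [norm_coef J _ hJ, ← TA_eq, ← Complex.ofReal_exp] at h1
  have hc : Continuous fun ω => ((Real.exp (T0 J ω) : ℝ) : ℂ) * h ω := by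
    have := (posClass μ hμ).cont h hh
    have := continuous_TA J (fun _ _ => 0)
    fun_prop
  have h2 : ∫ ω, Real.exp (T0 J ω) * (h ω).re ∂(P2 μ)
      = (∫ ω, ((Real.exp (T0 J ω) : ℝ) : ℂ) * h ω ∂(P2 μ)).re := by
    have := integral_re (𝕜 := ℂ) (integrable_of_continuous (P2 μ) hc)
    simp only [RCLike.re_to_complex] at this
    rw [← this]
    congr 1
    funext ω
    rw [Complex.re_ofReal_mul]
  rw [h2]
  exact (Complex.le_def.1 h1).1

end Pool.Agent.helper71.XY
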