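import Mathlib
import Pool.Agent.helper71.XY.Twist

/-!
# The second order inequality
-/

open MeasureTheory ComplexConjugate
open scoped ComplexOrder

namespace Pool.Agent.helper71.XY

attribute [local instance] fact2pi

variable {V : Type} [Fintype V] [DecidableEq V] (μ : V → Measure T)
  [∀ x, IsProbabilityMeasure (μ x)]

lemma mul_sinc' (x : ℝ) : x * Real.sinc x = Real.sin x := by
  by_cases h : x = 0
  · simp [h]
  · rw [Real.sinc_of_ne_zero h]; field_simp

lemma one_add_sq_le_cosh (b : ℝ) : 1 + b ^ 2 / 2 ≤ Real.cosh b := by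
  have h1 : Real.cosh b = 1 + 2 * Real.sinh (b / 2) ^ 2 := by
    have := Real.cosh_two_mul (b / 2)
    rw [show 2 * (b / 2) = b by ring, Real.cosh_sq] at this
    rw [this]; ring
  have h2 : (b / 2) ^ 2 ≤ Real.sinh (b / 2) ^ 2 := by
    rcases le_total 0 (b / 2) with h | h
    · have := Real.self_le_sinh_iff.2 h
      exact pow_le_pow_left₀ h this 2
    · have h3 := Real.sinh_le_self_iff.2 h
      nlinarith
  rw [h1]
  nlinarith

/-- `B̃_ε` -/
noncomputable def Bt (J k : V → V → ℝ) (ε : ℝ) (ω : V → T × T) : ℝ :=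
  (1 / 2) * ∑ x, ∑ j, J x j * (k x j * Real.sinc (ε * k x j)) * D ω x j

/-- `Ã_ε` -/
noncomputable def At (J k : V → V → ℝ) (ε : ℝ) (ω : V → T × T) : ℝ :=
  (1 / 2) * ∑ x, ∑ j, J x j * (k x j ^ 2 * Real.sinc (ε * k x j / 2) ^ 2 / 2) * U ω x j

lemma TA_expand (J k : V → V → ℝ) (ε : ℝ) (ω : V → T × T) :
    TA J (fun x j => ε * k x j) ω = T0 J ω - ε ^ 2 * At J k ε ω - ε * Bt J k ε ω := by
  have h1 : ∀ x j, J x j * (Real.cos (ε * k x j) * U ω x j - Real.sin (ε * k x j) * D ω x j)
      = J x j * (Real.cos 0 * U ω x j - Real.sin 0 * D ω x j)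
        - ε ^ 2 * (J x j * (k x j ^ 2 * Real.sinc (ε * k x j / 2) ^ 2 / 2) * U ω x j)
        - ε * (J x j * (k x j * Real.sinc (ε * k x j)) * D ω x j) := by
    intro x j
    have hs : Real.sin (ε * k x j) = ε * k x j * Real.sinc (ε * k x j) := (mul_sinc' _).symm
    have hc : Real.cos (ε * k x j)
        = 1 - 2 * (ε * k x j / 2 * Real.sinc (ε * k x j / 2)) ^ 2 := by
      rw [mul_sinc']
      have := Real.cos_two_mul (ε * k x j / 2)
      have h2 := Real.sin_sq_add_cos_sq (ε * k x j / 2)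
      rw [show 2 * (ε * k x j / 2) = ε * k x j by ring] at this
      linarith
    rw [hs, hc, Real.cos_zero, Real.sin_zero]
    ring
  simp only [T0, TA, At, Bt, h1, Finset.sum_sub_distrib, ← Finset.mul_sum]
  ring

lemma TA_expand' (J k : V → V → ℝ) (ε : ℝ) (ω : V → T × T) :
    TA J (fun x j => -ε * k x j) ω = T0 J ω - ε ^ 2 * At J k ε ω + ε * Bt J k ε ω := by
  rw [TA_expand]
  have hA : At J k (-ε) ω = At J k ε ω := by
    unfold At
    congr 1
    refine Finset.sum_congr rfl fun x _ => Finset.sum_congr rfl fun j _ => ?_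
    rw [show -ε * k x j / 2 = -(ε * k x j / 2) by ring, Real.sinc_neg]
  have hB : Bt J k (-ε) ω = Bt J k ε ω := by
    unfold Bt
    congr 1
    refine Finset.sum_congr rfl fun x _ => Finset.sum_congr rfl fun j _ => ?_
    rw [show -ε * k x j = -(ε * k x j) by ring, Real.sinc_neg]
  rw [hA, hB]
  ring

/-- `L = ½ ∑ J k D` -/
noncomputable def L (J k : V → V → ℝ) (ω : V → T × T) : ℝ :=
  (1 / 2) * ∑ x, ∑ j, J x j * k x j * D ω x j

/-- `Q = ½ ∑ J k² U` -/
noncomputable def Q (J k : V → V → ℝ) (ω : V → T × T) : ℝ :=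
  (1 / 2) * ∑ x, ∑ j, J x j * k x j ^ 2 * U ω x j

lemma continuous_Bt (J k : V → V → ℝ) : Continuous fun p : ℝ × (V → T × T) => Bt J k p.1 p.2 := by
  unfold Bt
  refine continuous_const.mul (continuous_finsetSum _ fun x _ =>
    continuous_finsetSum _ fun j _ => ?_)
  refine (continuous_const.mul (continuous_const.mul
    (Real.continuous_sinc.comp ?_))).mul ((continuous_D x j).comp continuous_snd)
  fun_prop

lemma continuous_At (J k : V → V → ℝ) : Continuous fun p : ℝ × (V → T × T) => At J k p.1 p.2 := by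
  unfold At
  refine continuous_const.mul (continuous_finsetSum _ fun x _ =>
    continuous_finsetSum _ fun j _ => ?_)
  refine (continuous_const.mul (((continuous_const.mul
    ((Real.continuous_sinc.comp ?_).pow 2)).div_const 2))).mul
      ((continuous_U x j).comp continuous_snd)
  fun_prop

/-- the integrand -/
noncomputable def FF (J k : V → V → ℝ) (ε : ℝ) (ω : V → T × T) : ℝ := Real.exp (T0 J ω) *
    (Bt J k ε ω ^ 2 / 2 - At J k ε ω - ε ^ 2 * At J k ε ω * Bt J k ε ω ^ 2 / 2)

lemma continuous_FF (J k : V → V → ℝ) :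
    Continuous fun p : ℝ × (V → T × T) => FF J k p.1 p.2 := by
  have h1 := continuous_Bt J k
  have h2 := continuous_At J k
  have h3 : Continuous fun p : ℝ × (V → T × T) => T0 J p.2 :=
    (continuous_TA J fun _ _ => 0).comp continuous_snd
  unfold FF
  exact (Real.continuous_exp.comp h3).mul ((((h1.pow 2).div_const 2).sub h2).sub
    ((((continuous_fst.pow 2).mul h2).mul (h1.pow 2)).div_const 2))

lemma continuous_FF_right (J k : V → V → ℝ) (ε : ℝ) : Continuous fun ω => FF J k ε ω := by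
  have h1 : Continuous fun ω => Bt J k ε ω := by
    unfold Bt
    refine continuous_const.mul (continuous_finsetSum _ fun x _ =>
      continuous_finsetSum _ fun j _ => ?_)
    exact continuous_const.mul (continuous_D x j)
  have h2 : Continuous fun ω => At J k ε ω := by
    unfold At
    refine continuous_const.mul (continuous_finsetSum _ fun x _ =>
      continuous_finsetSum _ fun j _ => ?_)
    exact continuous_const.mul (continuous_U x j)
  have h3 : Continuous fun ω => T0 J ω := continuous_TA J fun _ _ => 0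
  unfold FF
  exact (Real.continuous_exp.comp h3).mul ((((h1.pow 2).div_const 2).sub h2).sub
    (((continuous_const.mul h2).mul (h1.pow 2)).div_const 2))

lemma continuous_L (J k : V → V → ℝ) : Continuous fun ω : V → T × T => L J k ω := by
  unfold L
  refine continuous_const.mul (continuous_finsetSum _ fun x _ =>
    continuous_finsetSum _ fun j _ => ?_)
  exact continuous_const.mul (continuous_D x j)

lemma continuous_Q (J k : V → V → ℝ) : Continuous fun ω : V → T × T => Q J k ω := by
  unfold Q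
  refine continuous_const.mul (continuous_finsetSum _ fun x _ =>
    continuous_finsetSum _ fun j _ => ?_)
  exact continuous_const.mul (continuous_U x j)

lemma FF_zero (J k : V → V → ℝ) (ω : V → T × T) :
    FF J k 0 ω = (1 / 2) * (Real.exp (T0 J ω) * L J k ω ^ 2)
      - (1 / 2) * (Real.exp (T0 J ω) * Q J k ω) := by
  have hA : At J k 0 ω = Q J k ω / 2 := by
    simp only [At, Q, zero_mul, zero_div, Real.sinc_zero, one_pow, mul_one]
    rw [mul_div_assoc, Finset.sum_div]
    congr 1
    refine Finset.sum_congr rfl fun x _ => ?_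
    rw [Finset.sum_div]
    exact Finset.sum_congr rfl fun j _ => by ring
  have hB : Bt J k 0 ω = L J k ω := by
    simp only [Bt, L, zero_mul, Real.sinc_zero, mul_one]
  simp only [FF, hA, hB]
  ring

lemma FF_pointwise (J k : V → V → ℝ) (ε : ℝ) (ω : V → T × T) :
    2 * Real.exp (T0 J ω) + 2 * ε ^ 2 * FF J k ε ω
      ≤ Real.exp (TA J (fun x j => ε * k x j) ω)
        + Real.exp (TA J (fun x j => -ε * k x j) ω) := by
  rw [TA_expand, TA_expand', FF]
  generalize At J k ε ω = A
  generalize Bt J k ε ω = B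
  generalize T0 J ω = t
  have e1 : Real.exp (t - ε ^ 2 * A - ε * B) + Real.exp (t - ε ^ 2 * A + ε * B)
      = Real.exp t * (Real.exp (-(ε ^ 2 * A)) * (2 * Real.cosh (ε * B))) := by
    rw [Real.cosh_eq, show t - ε ^ 2 * A - ε * B = t + (-(ε ^ 2 * A) + -(ε * B)) by ring,
      show t - ε ^ 2 * A + ε * B = t + (-(ε ^ 2 * A) + ε * B) by ring, Real.exp_add,
      Real.exp_add, Real.exp_add, Real.exp_add]
    ring
  rw [e1]
  have e2 : 1 + (ε * B) ^ 2 / 2 ≤ Real.cosh (ε * B) := one_add_sq_le_cosh _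
  have e3 : 1 - ε ^ 2 * A ≤ Real.exp (-(ε ^ 2 * A)) := by
    have := Real.add_one_le_exp (-(ε ^ 2 * A)); linarith
  have e4 : (1 - ε ^ 2 * A) * (1 + (ε * B) ^ 2 / 2)
      ≤ Real.exp (-(ε ^ 2 * A)) * Real.cosh (ε * B) :=
    calc (1 - ε ^ 2 * A) * (1 + (ε * B) ^ 2 / 2)
        ≤ Real.exp (-(ε ^ 2 * A)) * (1 + (ε * B) ^ 2 / 2) :=
          mul_le_mul_of_nonneg_right e3 (by positivity)
      _ ≤ _ := mul_le_mul_of_nonneg_left e2 (Real.exp_pos _).le
  have e5 : 2 * Real.exp t + 2 * ε ^ 2 * (Real.exp t *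
      (B ^ 2 / 2 - A - ε ^ 2 * A * B ^ 2 / 2))
      = Real.exp t * (2 * ((1 - ε ^ 2 * A) * (1 + (ε * B) ^ 2 / 2))) := by
    ring
  rw [e5]
  apply mul_le_mul_of_nonneg_left _ (Real.exp_pos _).le
  linarith

theorem second_order (hμ : ∀ x, Nice (μ x)) (J k : V → V → ℝ) (hJ : ∀ x j, 0 ≤ J x j) :
    ∫ ω, Real.exp (T0 J ω) * L J k ω ^ 2 ∂(P2 μ) ≤ ∫ ω, Real.exp (T0 J ω) * Q J k ω ∂(P2 μ) := by
  have hcI : Continuous fun ε => ∫ ω, FF J k ε ω ∂(P2 μ) := by
    have := continuous_parametric_integral_of_continuous (μ := P2 μ)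
      (f := fun ε ω => FF J k ε ω) (continuous_FF J k) isCompact_univ
    simpa using this
  have hle : ∀ ε : ℝ, ε ≠ 0 → ∫ ω, FF J k ε ω ∂(P2 μ) ≤ 0 := by
    intro ε hε
    have h1 := twist_le μ hμ J (fun x j => ε * k x j) hJ
    have h2 := twist_le μ hμ J (fun x j => -ε * k x j) hJ
    have hc1 := continuous_TA J (fun x j => ε * k x j)
    have hc2 := continuous_TA J (fun x j => -ε * k x j)
    have hc0 := continuous_TA J (fun _ _ => 0)
    have i1 : Integrable (fun ω => Real.exp (TA J (fun x j => ε * k x j) ω)) (P2 μ) :=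
      integrable_of_continuous _ (Real.continuous_exp.comp hc1)
    have i2 : Integrable (fun ω => Real.exp (TA J (fun x j => -ε * k x j) ω)) (P2 μ) :=
      integrable_of_continuous _ (Real.continuous_exp.comp hc2)
    have i0 : Integrable (fun ω => Real.exp (T0 J ω)) (P2 μ) :=
      integrable_of_continuous _ (Real.continuous_exp.comp hc0)
    have iF : Integrable (fun ω => FF J k ε ω) (P2 μ) :=
      integrable_of_continuous _ (continuous_FF_right J k ε)
    have h3 : ∫ ω, (2 * Real.exp (T0 J ω) + 2 * ε ^ 2 * FF J k ε ω) ∂(P2 μ)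
        ≤ ∫ ω, (Real.exp (TA J (fun x j => ε * k x j) ω)
          + Real.exp (TA J (fun x j => -ε * k x j) ω)) ∂(P2 μ) :=
      integral_mono ((i0.const_mul 2).add (iF.const_mul _)) (i1.add i2)
        (FF_pointwise J k ε)
    rw [integral_add (i0.const_mul 2) (iF.const_mul _), integral_add i1 i2,
      integral_const_mul, integral_const_mul] at h3
    have h4 : 2 * ε ^ 2 * ∫ ω, FF J k ε ω ∂(P2 μ) ≤ 0 := by linarith
    have hε2 : 0 < 2 * ε ^ 2 := by positivity
    by_contra hcon
    push Not at hcon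
    have := mul_pos hε2 hcon
    linarith
  have h0 : ∫ ω, FF J k 0 ω ∂(P2 μ) ≤ 0 := by
    have hcl : IsClosed {ε : ℝ | ∫ ω, FF J k ε ω ∂(P2 μ) ≤ 0} := isClosed_le hcI continuous_const
    have hd : Dense ({0}ᶜ : Set ℝ) := dense_compl_singleton 0
    have hsub : ({0}ᶜ : Set ℝ) ⊆ {ε : ℝ | ∫ ω, FF J k ε ω ∂(P2 μ) ≤ 0} := fun ε hε => hle ε hε
    have := hcl.closure_subset_iff.2 hsub
    rw [hd.closure_eq] at this
    exact this (Set.mem_univ 0)
  simp_rw [FF_zero] at h0
  have hcL := continuous_L J k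
  have hcQ := continuous_Q J k
  have hc0 : Continuous fun ω => Real.exp (T0 J ω) :=
    Real.continuous_exp.comp (continuous_TA J (fun _ _ => 0))
  have i1 : Integrable (fun ω => Real.exp (T0 J ω) * L J k ω ^ 2) (P2 μ) :=
    integrable_of_continuous _ (hc0.mul (hcL.pow 2))
  have i2 : Integrable (fun ω => Real.exp (T0 J ω) * Q J k ω) (P2 μ) :=
    integrable_of_continuous _ (hc0.mul hcQ)
  rw [integral_sub (i1.const_mul _) (i2.const_mul _), integral_const_mul,
    integral_const_mul] at h0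
  linarith

end Pool.Agent.helper71.XY
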