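import Mathlib
import Pool.Agent.helper71.XY.Second

/-!
# Inequalities for the pinned planar model
-/

open MeasureTheory ComplexConjugate
open scoped ComplexOrder

namespace Pool.Agent.helper71.XY

attribute [local instance] fact2pi

variable {V : Type} [Fintype V] [DecidableEq V] (μ : V → Measure T)
  [∀ x, IsProbabilityMeasure (μ x)]

/-- cosine of the spin at `x` -/
noncomputable def cp (x : V) (θ : V → T) : ℝ := (e (θ x)).re
/-- sine of the spin at `x` -/
noncomputable def sq (x : V) (θ : V → T) : ℝ := (e (θ x)).im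

lemma continuous_cp (x : V) : Continuous (cp (V := V) x) := by
  unfold cp
  have := continuous_e
  fun_prop

lemma continuous_sq (x : V) : Continuous (sq (V := V) x) := by
  unfold sq
  have := continuous_e
  fun_prop

/-- the Gibbs weight -/
noncomputable def W (J : V → V → ℝ) (θ : V → T) : ℝ :=
  Real.exp ((1 / 2) * ∑ x, ∑ j, J x j * (e (θ x) * conj (e (θ j))).re)

lemma continuous_W (J : V → V → ℝ) : Continuous (W J) := by
  unfold W
  have := continuous_e
  fun_prop

/-- unnormalised expectation -/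
noncomputable def II (J : V → V → ℝ) (f : (V → T) → ℝ) : ℝ :=
  ∫ θ, W J θ * f θ ∂(Measure.pi μ)

lemma II_integrable (J : V → V → ℝ) {f : (V → T) → ℝ} (hf : Continuous f) :
    Integrable (fun θ => W J θ * f θ) (Measure.pi μ) :=
  integrable_of_continuous _ ((continuous_W J).mul hf)

lemma II_pos (J : V → V → ℝ) : 0 < II μ J fun _ => 1 := by
  unfold II
  simp only [mul_one]
  have hi : Integrable (fun θ => W J θ) (Measure.pi μ) :=
    integrable_of_continuous _ (continuous_W J)
  exact integral_exp_pos hi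

lemma II_add (J : V → V → ℝ) {f g : (V → T) → ℝ} (hf : Continuous f) (hg : Continuous g) :
    II μ J (fun θ => f θ + g θ) = II μ J f + II μ J g := by
  unfold II
  simp only [mul_add]
  exact integral_add (II_integrable μ J hf) (II_integrable μ J hg)

lemma II_const_mul (J : V → V → ℝ) (c : ℝ) (f : (V → T) → ℝ) :
    II μ J (fun θ => c * f θ) = c * II μ J f := by
  unfold II
  rw [← integral_const_mul]
  congr 1
  funext θ
  ring

lemma II_mono (J : V → V → ℝ) {f g : (V → T) → ℝ} (hf : Continuous f) (hg : Continuous g)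
    (h : ∀ θ, f θ ≤ g θ) : II μ J f ≤ II μ J g := by
  unfold II
  apply integral_mono (II_integrable μ J hf) (II_integrable μ J hg)
  intro θ
  exact mul_le_mul_of_nonneg_left (h θ) (Real.exp_pos _).le

lemma W_neg (J : V → V → ℝ) (θ : V → T) : W J (fun x => -θ x) = W J θ := by
  unfold W
  congr 2
  refine Finset.sum_congr rfl fun x _ => Finset.sum_congr rfl fun j _ => ?_
  rw [e_neg, e_neg]
  simp only [Complex.conj_conj, Complex.mul_re, Complex.conj_re, Complex.conj_im]
  ring

lemma II_neg (hμ : ∀ x, Nice (μ x)) (J : V → V → ℝ) (f : (V → T) → ℝ) (hf : Continuous f) :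
    II μ J f = II μ J fun θ => f fun x => -θ x := by
  have h := measurePreserving_pi μ μ (f := fun _ θ => -θ) fun x => (hμ x).neg
  unfold II
  have h2 : ∫ θ, W J θ * f θ ∂(Measure.pi μ)
      = ∫ θ, W J θ * f θ ∂(Measure.map (fun (a : V → T) i => - a i) (Measure.pi μ)) := by
    rw [h.map_eq]
  have hc : Continuous fun θ => W J θ * f θ := (continuous_W J).mul hf
  rw [h2, integral_map (f := fun θ => W J θ * f θ) h.measurable.aemeasurable
    hc.aestronglyMeasurable]
  simp_rw [W_neg]

lemma II_sq (hμ : ∀ x, Nice (μ x)) (J : V → V → ℝ) (x : V) : II μ J (sq x) = 0 := by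
  have h := II_neg μ hμ J (sq x) (continuous_sq x)
  have h2 : (fun θ : V → T => sq x fun x => -θ x) = fun θ => (-1) * sq x θ := by
    funext θ
    simp [sq, e_neg]
  rw [h2, II_const_mul] at h
  linarith

lemma T0_eq (J : V → V → ℝ) (ω : V → T × T) :
    Real.exp (T0 J ω) = W J (fun x => (ω x).1) * W J (fun x => (ω x).2) := by
  unfold W
  rw [← Real.exp_add]
  congr 1
  unfold T0 TA U
  rw [← mul_add, ← Finset.sum_add_distrib]
  congr 1
  refine Finset.sum_congr rfl fun x _ => ?_
  rw [← Finset.sum_add_distrib]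
  refine Finset.sum_congr rfl fun j _ => ?_
  rw [Real.cos_zero, Real.sin_zero]
  ring

/-- unnormalised two-copy expectation -/
noncomputable def E2 (J : V → V → ℝ) (f : (V → T × T) → ℝ) : ℝ :=
  ∫ ω, Real.exp (T0 J ω) * f ω ∂(P2 μ)

lemma E2_integrable (J : V → V → ℝ) {f : (V → T × T) → ℝ} (hf : Continuous f) :
    Integrable (fun ω => Real.exp (T0 J ω) * f ω) (P2 μ) :=
  integrable_of_continuous _ ((Real.continuous_exp.comp (continuous_TA J _)).mul hf)

lemma E2_add (J : V → V → ℝ) (f g : (V → T × T) → ℝ) (hf : Continuous f) (hg : Continuous g) :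
    E2 μ J (fun ω => f ω + g ω) = E2 μ J f + E2 μ J g := by
  unfold E2
  simp only [mul_add]
  exact integral_add (E2_integrable μ J hf) (E2_integrable μ J hg)

lemma E2_sub (J : V → V → ℝ) (f g : (V → T × T) → ℝ) (hf : Continuous f) (hg : Continuous g) :
    E2 μ J (fun ω => f ω - g ω) = E2 μ J f - E2 μ J g := by
  unfold E2
  simp only [mul_sub]
  exact integral_sub (E2_integrable μ J hf) (E2_integrable μ J hg)

lemma E2_const_mul (J : V → V → ℝ) (c : ℝ) (f : (V → T × T) → ℝ) :
    E2 μ J (fun ω => c * f ω) = c * E2 μ J f := by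
  unfold E2
  rw [← integral_const_mul]
  congr 1
  funext θ
  ring

lemma E2_sum (J : V → V → ℝ) {κ : Type*} (s : Finset κ) (f : κ → (V → T × T) → ℝ)
    (hf : ∀ k, Continuous (f k)) :
    E2 μ J (fun ω => ∑ k ∈ s, f k ω) = ∑ k ∈ s, E2 μ J (f k) := by
  unfold E2
  simp only [Finset.mul_sum]
  exact integral_finsetSum _ fun k _ => E2_integrable μ J (hf k)

lemma E2_mono (J : V → V → ℝ) {f g : (V → T × T) → ℝ} (hf : Continuous f) (hg : Continuous g)
    (h : ∀ ω, f ω ≤ g ω) : E2 μ J f ≤ E2 μ J g := by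
  unfold E2
  apply integral_mono (E2_integrable μ J hf) (E2_integrable μ J hg)
  intro θ
  exact mul_le_mul_of_nonneg_left (h θ) (Real.exp_pos _).le

lemma E2_prod (J : V → V → ℝ) (f g : (V → T) → ℝ) :
    E2 μ J (fun ω => f (fun x => (ω x).1) * g (fun x => (ω x).2)) = II μ J f * II μ J g := by
  have h := measurePreserving_arrowProdEquivProdArrow T T V μ μ
  have h2 := h.integral_comp' (g := fun p : (V → T) × (V → T) =>
    (W J p.1 * f p.1) * (W J p.2 * g p.2))
  rw [integral_prod_mul (f := fun θ : V → T => W J θ * f θ)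
    (g := fun θ : V → T => W J θ * g θ)] at h2
  unfold II E2
  rw [← h2]
  congr 1
  funext ω
  rw [T0_eq]
  simp only [MeasurableEquiv.arrowProdEquivProdArrow, MeasurableEquiv.coe_mk,
    Equiv.arrowProdEquivProdArrow, Equiv.coe_fn_mk]
  ring

lemma continuous_p1 {f : (V → T) → ℝ} (hf : Continuous f) :
    Continuous fun ω : V → T × T => f fun x => (ω x).1 := by
  have h : Continuous fun (ω : V → T × T) (x : V) => (ω x).1 := by fun_prop
  exact hf.comp h

lemma continuous_p2 {f : (V → T) → ℝ} (hf : Continuous f) :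
    Continuous fun ω : V → T × T => f fun x => (ω x).2 := by
  have h : Continuous fun (ω : V → T × T) (x : V) => (ω x).2 := by fun_prop
  exact hf.comp h

/-- the product observable -/
noncomputable def PR (f g : (V → T) → ℝ) (ω : V → T × T) : ℝ :=
  f (fun x => (ω x).1) * g (fun x => (ω x).2)

lemma continuous_PR {f g : (V → T) → ℝ} (hf : Continuous f) (hg : Continuous g) :
    Continuous (PR f g) := (continuous_p1 hf).mul (continuous_p2 hg)

lemma E2_PR (J : V → V → ℝ) (f g : (V → T) → ℝ) :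
    E2 μ J (PR f g) = II μ J f * II μ J g := E2_prod μ J f g

/-- the observable `sin θ_z - sin θ'_z` -/
noncomputable def FZ (z : V) (ω : V → T × T) : ℝ := (e (ω z).1).im - (e (ω z).2).im

lemma continuous_FZ (z : V) : Continuous (FZ (V := V) z) := by
  unfold FZ
  have := continuous_e
  fun_prop

lemma E2_FF (hμ : ∀ x, Nice (μ x)) (J : V → V → ℝ) (z : V) :
    E2 μ J (fun ω => FZ z ω ^ 2)
      = 2 * (II μ J (fun _ => 1) * II μ J fun θ => sq z θ * sq z θ) := by
  have c := continuous_sq (V := V) z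
  have c1 := continuous_PR (f := fun θ => sq z θ * sq z θ) (g := fun _ => 1) (c.mul c)
    continuous_const
  have c2 := continuous_PR c c
  have c3 := continuous_PR (f := fun _ => 1) (g := fun θ => sq z θ * sq z θ) continuous_const
    (c.mul c)
  have h4 : (fun ω : V → T × T => FZ z ω ^ 2)
      = fun ω => (PR (fun θ => sq z θ * sq z θ) (fun _ => 1) ω - 2 * PR (sq z) (sq z) ω)
        + PR (fun _ => 1) (fun θ => sq z θ * sq z θ) ω := by
    funext ω
    simp only [FZ, sq, PR]
    ring
  rw [h4, E2_add _ _ (fun ω => PR (fun θ => sq z θ * sq z θ) (fun _ => 1) ω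
      - 2 * PR (sq z) (sq z) ω) _ (c1.sub (c2.const_mul 2)) c3,
    E2_sub _ _ _ _ c1 (c2.const_mul 2), E2_const_mul, E2_PR, E2_PR, E2_PR, II_sq μ hμ]
  ring

lemma E2_lin8 (J : V → V → ℝ) (f1 f2 f3 f4 f5 f6 f7 f8 : (V → T × T) → ℝ)
    (h1 : Continuous f1) (h2 : Continuous f2) (h3 : Continuous f3) (h4 : Continuous f4)
    (h5 : Continuous f5) (h6 : Continuous f6) (h7 : Continuous f7) (h8 : Continuous f8) :
    E2 μ J (fun ω => ((f1 ω + f2 ω) - (f3 ω + f4 ω)) - ((f5 ω + f6 ω) - (f7 ω + f8 ω)))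
      = ((E2 μ J f1 + E2 μ J f2) - (E2 μ J f3 + E2 μ J f4))
        - ((E2 μ J f5 + E2 μ J f6) - (E2 μ J f7 + E2 μ J f8)) := by
  rw [E2_sub μ J (fun ω => (f1 ω + f2 ω) - (f3 ω + f4 ω))
      (fun ω => (f5 ω + f6 ω) - (f7 ω + f8 ω)) ((h1.add h2).sub (h3.add h4))
      ((h5.add h6).sub (h7.add h8)),
    E2_sub μ J (fun ω => f1 ω + f2 ω) (fun ω => f3 ω + f4 ω) (h1.add h2) (h3.add h4),
    E2_sub μ J (fun ω => f5 ω + f6 ω) (fun ω => f7 ω + f8 ω) (h5.add h6) (h7.add h8),
    E2_add _ _ _ _ h1 h2, E2_add _ _ _ _ h3 h4, E2_add _ _ _ _ h5 h6, E2_add _ _ _ _ h7 h8]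

lemma E2_FD (hμ : ∀ x, Nice (μ x)) (J : V → V → ℝ) (z x j : V) :
    E2 μ J (fun ω => FZ z ω * D ω x j)
      = 2 * (II μ J (cp j) * II μ J (fun θ => sq z θ * sq x θ)
          - II μ J (cp x) * II μ J (fun θ => sq z θ * sq j θ)) := by
  have cs := continuous_sq (V := V)
  have cc := continuous_cp (V := V)
  have h4 : (fun ω : V → T × T => FZ z ω * D ω x j)
      = fun ω => ((PR (fun θ => sq z θ * sq x θ) (cp j) ω
            + PR (fun θ => sq z θ * cp x θ) (sq j) ω)
          - (PR (fun θ => sq z θ * sq j θ) (cp x) ω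
            + PR (fun θ => sq z θ * cp j θ) (sq x) ω))
        - ((PR (sq x) (fun θ => sq z θ * cp j θ) ω
            + PR (cp x) (fun θ => sq z θ * sq j θ) ω)
          - (PR (sq j) (fun θ => sq z θ * cp x θ) ω
            + PR (cp j) (fun θ => sq z θ * sq x θ) ω)) := by
    funext ω
    simp only [FZ, D, sq, cp, PR, Complex.mul_im]
    ring
  have c1 := continuous_PR (f := fun θ => sq z θ * sq x θ) (g := cp j) ((cs z).mul (cs x)) (cc j)
  have c2 := continuous_PR (f := fun θ => sq z θ * cp x θ) (g := sq j) ((cs z).mul (cc x)) (cs j)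
  have c3 := continuous_PR (f := fun θ => sq z θ * sq j θ) (g := cp x) ((cs z).mul (cs j)) (cc x)
  have c4 := continuous_PR (f := fun θ => sq z θ * cp j θ) (g := sq x) ((cs z).mul (cc j)) (cs x)
  have c5 := continuous_PR (f := sq x) (g := fun θ => sq z θ * cp j θ) (cs x) ((cs z).mul (cc j))
  have c6 := continuous_PR (f := cp x) (g := fun θ => sq z θ * sq j θ) (cc x) ((cs z).mul (cs j))
  have c7 := continuous_PR (f := sq j) (g := fun θ => sq z θ * cp x θ) (cs j) ((cs z).mul (cc x))
  have c8 := continuous_PR (f := cp j) (g := fun θ => sq z θ * sq x θ) (cc j) ((cs z).mul (cs x))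
  rw [h4, E2_lin8 μ J _ _ _ _ _ _ _ _ c1 c2 c3 c4 c5 c6 c7 c8]
  simp only [E2_PR, II_sq μ hμ]
  ring

lemma re_le_one (a b : T) : (e a * conj (e b)).re ≤ 1 := by
  refine (Complex.re_le_norm _).trans ?_
  rw [norm_mul, Complex.norm_conj, norm_e, norm_e, mul_one]

lemma E2_U_le (J : V → V → ℝ) (x j : V) :
    E2 μ J (fun ω => U ω x j) ≤ 2 * (II μ J (fun _ => 1)) ^ 2 := by
  have h1 := E2_PR μ J (fun _ => 1) (fun _ => 1)
  have hc := continuous_PR (V := V) (f := fun _ => 1) (g := fun _ => 1) continuous_const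
    continuous_const
  have h2 : E2 μ J (fun ω => U ω x j) ≤ E2 μ J (fun ω => 2 * PR (fun _ => 1) (fun _ => 1) ω) := by
    apply E2_mono μ J (continuous_U x j) (hc.const_mul 2)
    intro ω
    unfold U PR
    linarith [re_le_one (ω x).1 (ω j).1, re_le_one (ω x).2 (ω j).2]
  rw [E2_const_mul, h1] at h2
  linarith [h2]

/-- The main correlation inequality (unnormalised). -/
theorem key (hμ : ∀ x, Nice (μ x)) (J : V → V → ℝ) (hJ : ∀ x j, 0 ≤ J x j) (z : V)
    (k : V → V → ℝ)
    (hk : ∀ x j, II μ J (cp j) * II μ J (fun θ => sq z θ * sq x θ)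
          - II μ J (cp x) * II μ J (fun θ => sq z θ * sq j θ)
          = (II μ J (fun _ => 1)) ^ 2 * k x j) :
    II μ J (fun _ => 1) * (∑ x, ∑ j, J x j * k x j ^ 2)
      ≤ 2 * II μ J (fun θ => sq z θ * sq z θ) := by
  set Z := II μ J (fun _ => 1) with hZ
  have hZ0 : 0 < Z := II_pos μ J
  set S := ∑ x, ∑ j, J x j * k x j ^ 2 with hS
  have h1 : E2 μ J (fun ω => L J k ω ^ 2) ≤ E2 μ J (fun ω => Q J k ω) := second_order μ hμ J k hJ
  have h2 : E2 μ J (fun ω => Q J k ω) ≤ Z ^ 2 * S := by
    have : (fun ω : V → T × T => Q J k ω)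
        = fun ω => (1 / 2) * ∑ x, ∑ j, (J x j * k x j ^ 2) * U ω x j := rfl
    rw [this, E2_const_mul, E2_sum _ _ _ (fun x ω => ∑ j, (J x j * k x j ^ 2) * U ω x j)]
    · have h3 : ∀ x, E2 μ J (fun ω => ∑ j, (J x j * k x j ^ 2) * U ω x j)
          ≤ ∑ j, (J x j * k x j ^ 2) * (2 * Z ^ 2) := by
        intro x
        rw [E2_sum _ _ _ (fun j ω => (J x j * k x j ^ 2) * U ω x j)]
        · apply Finset.sum_le_sum
          intro j _
          rw [E2_const_mul]
          exact mul_le_mul_of_nonneg_left (E2_U_le μ J x j)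
            (mul_nonneg (hJ x j) (sq_nonneg _))
        · intro j
          exact (continuous_U x j).const_mul _
      calc (1 / 2) * ∑ x, E2 μ J (fun ω => ∑ j, (J x j * k x j ^ 2) * U ω x j)
          ≤ (1 / 2) * ∑ x, ∑ j, (J x j * k x j ^ 2) * (2 * Z ^ 2) := by
            apply mul_le_mul_of_nonneg_left _ (by norm_num)
            exact Finset.sum_le_sum fun x _ => h3 x
        _ = Z ^ 2 * S := by
            rw [hS]
            simp only [← Finset.sum_mul]
            ring
    · intro x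
      exact continuous_finsetSum _ fun j _ => (continuous_U x j).const_mul _
  have h3 : E2 μ J (fun ω => FZ z ω * L J k ω) = Z ^ 2 * S := by
    have : (fun ω : V → T × T => FZ z ω * L J k ω)
        = fun ω => (1 / 2) * ∑ x, ∑ j, (J x j * k x j) * (FZ z ω * D ω x j) := by
      funext ω
      unfold L
      simp only [Finset.mul_sum]
      refine Finset.sum_congr rfl fun x _ => Finset.sum_congr rfl fun j _ => ?_
      ring
    have hc : ∀ x j, Continuous fun ω : V → T × T => FZ z ω * D ω x j := fun x j =>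
      (continuous_FZ z).mul (continuous_D x j)
    rw [this, E2_const_mul, E2_sum _ _ _ (fun x ω => ∑ j, (J x j * k x j) * (FZ z ω * D ω x j))
      (fun x => continuous_finsetSum _ fun j _ => (hc x j).const_mul _)]
    have h4 : ∀ x, E2 μ J (fun ω => ∑ j, (J x j * k x j) * (FZ z ω * D ω x j))
        = ∑ j, (J x j * k x j ^ 2) * (2 * Z ^ 2) := by
      intro x
      rw [E2_sum _ _ _ (fun j ω => (J x j * k x j) * (FZ z ω * D ω x j))
        (fun j => (hc x j).const_mul _)]
      refine Finset.sum_congr rfl fun j _ => ?_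
      rw [E2_const_mul, E2_FD μ hμ, hk]
      ring
    simp only [h4]
    rw [hS]
    simp only [← Finset.sum_mul]
    ring
  have h4 := E2_FF μ hμ J z
  have hcF := continuous_FZ (V := V) z
  have hcL := continuous_L (V := V) J k
  have h5 : 0 ≤ E2 μ J (fun ω => (FZ z ω - L J k ω) ^ 2) := by
    unfold E2
    apply integral_nonneg
    intro ω
    exact mul_nonneg (Real.exp_pos _).le (sq_nonneg _)
  have h6 : E2 μ J (fun ω => (FZ z ω - L J k ω) ^ 2)
      = E2 μ J (fun ω => FZ z ω ^ 2) - 2 * E2 μ J (fun ω => FZ z ω * L J k ω)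
        + E2 μ J (fun ω => L J k ω ^ 2) := by
    have : (fun ω : V → T × T => (FZ z ω - L J k ω) ^ 2)
        = fun ω => (FZ z ω ^ 2 - 2 * (FZ z ω * L J k ω)) + L J k ω ^ 2 := by
      funext ω; ring
    rw [this, E2_add μ J (fun ω => FZ z ω ^ 2 - 2 * (FZ z ω * L J k ω)) (fun ω => L J k ω ^ 2)
      ((hcF.pow 2).sub ((hcF.mul hcL).const_mul 2)) (hcL.pow 2),
      E2_sub μ J (fun ω => FZ z ω ^ 2) (fun ω => 2 * (FZ z ω * L J k ω)) (hcF.pow 2)
      ((hcF.mul hcL).const_mul 2), E2_const_mul]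
  rw [h6, h3, h4] at h5
  have h7 : Z * (Z * S) ≤ Z * (2 * II μ J (fun θ => sq z θ * sq z θ)) := by
    rw [← hZ] at h5
    nlinarith
  exact le_of_mul_le_mul_left h7 hZ0

end Pool.Agent.helper71.XY
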