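import Mathlib
import Pool.Agent.helper71.XY.Ineq

/-!
# More inequalities for the pinned planar model
-/

open MeasureTheory ComplexConjugate
open scoped ComplexOrder

namespace Pool.Agent.helper71.XY

attribute [local instance] fact2pi

variable {V : Type} [Fintype V] [DecidableEq V] (μ : V → Measure T)
  [∀ x, IsProbabilityMeasure (μ x)]

lemma cp_sq_add_sq_sq (x : V) (θ : V → T) : cp x θ * cp x θ + sq x θ * sq x θ = 1 := by
  have h := norm_e (θ x)
  have h2 := Complex.sq_norm (e (θ x))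
  rw [h, Complex.normSq_apply] at h2
  unfold cp sq
  linarith

lemma II_cp_nonneg (hμ : ∀ x, Nice (μ x)) (J : V → V → ℝ) (hJ : ∀ x j, 0 ≤ J x j) (x : V) :
    0 ≤ II μ J (cp x) := by
  have h := weight_nonneg μ hμ J hJ _ (mono_eta x)
  have h1 : ∫ ω, Real.exp (T0 J ω) * (eta (ω x)).re ∂(P2 μ)
      = E2 μ J (fun ω => PR (cp x) (fun _ => 1) ω + PR (fun _ => 1) (cp x) ω) := by
    unfold E2
    congr 1
    funext ω
    simp only [PR, cp, eta, Complex.add_re, Complex.conj_re]
    ring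
  have c1 := continuous_PR (f := cp x) (g := fun _ => 1) (continuous_cp x) continuous_const
  have c2 := continuous_PR (f := fun _ => 1) (g := cp x) continuous_const (continuous_cp x)
  rw [h1, E2_add μ J _ _ c1 c2, E2_PR, E2_PR] at h
  have hZ := II_pos μ J
  nlinarith

lemma II_pp_add (J : V → V → ℝ) (x : V) :
    II μ J (fun θ => cp x θ * cp x θ) + II μ J (fun θ => sq x θ * sq x θ)
      = II μ J fun _ => 1 := by
  rw [← II_add μ J (f := fun θ => cp x θ * cp x θ) (g := fun θ => sq x θ * sq x θ)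
    ((continuous_cp x).mul (continuous_cp x)) ((continuous_sq x).mul (continuous_sq x))]
  simp only [cp_sq_add_sq_sq]

lemma II_m_sq_ge (hμ : ∀ x, Nice (μ x)) (J : V → V → ℝ) (hJ : ∀ x j, 0 ≤ J x j) (x : V) :
    (II μ J fun _ => 1) ^ 2 - 2 * (II μ J fun _ => 1) * II μ J (fun θ => sq x θ * sq x θ)
      ≤ II μ J (cp x) ^ 2 := by
  have h := weight_nonneg μ hμ J hJ _ ((mono_xi x).mul' (mono_xi x))
  have cs := continuous_sq x
  have cc := continuous_cp x
  have c1 := continuous_PR (f := fun θ => sq x θ * sq x θ) (g := fun _ => 1) (cs.mul cs)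
    continuous_const
  have c2 := continuous_PR (f := fun _ => 1) (g := fun θ => sq x θ * sq x θ) continuous_const
    (cs.mul cs)
  have c3 := continuous_PR cc cc
  have c4 := continuous_PR cs cs
  have c5 := continuous_PR (f := fun θ => cp x θ * cp x θ) (g := fun _ => 1) (cc.mul cc)
    continuous_const
  have c6 := continuous_PR (f := fun _ => 1) (g := fun θ => cp x θ * cp x θ) continuous_const
    (cc.mul cc)
  have h1 : ∫ ω, Real.exp (T0 J ω) * (xi (ω x) * xi (ω x)).re ∂(P2 μ)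
      = E2 μ J (fun ω => ((PR (fun θ => sq x θ * sq x θ) (fun _ => 1) ω
          + PR (fun _ => 1) (fun θ => sq x θ * sq x θ) ω)
          + (2 * PR (cp x) (cp x) ω + 2 * PR (sq x) (sq x) ω))
          - (PR (fun θ => cp x θ * cp x θ) (fun _ => 1) ω
          + PR (fun _ => 1) (fun θ => cp x θ * cp x θ) ω)) := by
    unfold E2
    congr 1
    funext ω
    simp only [PR, cp, sq, xi, Complex.conj_re, Complex.mul_re, Complex.mul_im,
      Complex.neg_re, Complex.neg_im, Complex.I_re, Complex.I_im, Complex.sub_re, Complex.sub_im,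
      Complex.conj_im]
    ring
  rw [h1, E2_sub μ J (fun ω => (PR (fun θ => sq x θ * sq x θ) (fun _ => 1) ω
          + PR (fun _ => 1) (fun θ => sq x θ * sq x θ) ω)
          + (2 * PR (cp x) (cp x) ω + 2 * PR (sq x) (sq x) ω))
        (fun ω => PR (fun θ => cp x θ * cp x θ) (fun _ => 1) ω
          + PR (fun _ => 1) (fun θ => cp x θ * cp x θ) ω)
        ((c1.add c2).add ((c3.const_mul 2).add (c4.const_mul 2))) (c5.add c6),
    E2_add μ J (fun ω => PR (fun θ => sq x θ * sq x θ) (fun _ => 1) ω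
          + PR (fun _ => 1) (fun θ => sq x θ * sq x θ) ω)
        (fun ω => 2 * PR (cp x) (cp x) ω + 2 * PR (sq x) (sq x) ω) (c1.add c2)
        ((c3.const_mul 2).add (c4.const_mul 2)),
    E2_add μ J _ _ c1 c2, E2_add μ J _ _ c5 c6,
    E2_add μ J (fun ω => 2 * PR (cp x) (cp x) ω) (fun ω => 2 * PR (sq x) (sq x) ω)
      (c3.const_mul 2) (c4.const_mul 2), E2_const_mul, E2_const_mul] at h
  simp only [E2_PR, II_sq μ hμ] at h
  have h2 := II_pp_add μ J x
  have h3 : II μ J (fun θ => cp x θ * cp x θ)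
      = (II μ J fun _ => 1) - II μ J (fun θ => sq x θ * sq x θ) := by linarith
  rw [h3] at h
  nlinarith

lemma II_m_sq_le (J : V → V → ℝ) (x : V) :
    II μ J (cp x) ^ 2 ≤ (II μ J fun _ => 1) * II μ J (fun θ => cp x θ * cp x θ) := by
  have cc := continuous_cp x
  have c3 := continuous_PR cc cc
  have c5 := continuous_PR (f := fun θ => cp x θ * cp x θ) (g := fun _ => 1) (cc.mul cc)
    continuous_const
  have c6 := continuous_PR (f := fun _ => 1) (g := fun θ => cp x θ * cp x θ) continuous_const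
    (cc.mul cc)
  have h : 0 ≤ E2 μ J (fun ω => (PR (fun θ => cp x θ * cp x θ) (fun _ => 1) ω
          + PR (fun _ => 1) (fun θ => cp x θ * cp x θ) ω) - 2 * PR (cp x) (cp x) ω) := by
    unfold E2
    apply integral_nonneg
    intro ω
    apply mul_nonneg (Real.exp_pos _).le
    simp only [PR]
    nlinarith [sq_nonneg (cp x (fun x => (ω x).1) - cp x (fun x => (ω x).2))]
  rw [E2_sub μ J (fun ω => PR (fun θ => cp x θ * cp x θ) (fun _ => 1) ω
          + PR (fun _ => 1) (fun θ => cp x θ * cp x θ) ω) (fun ω => 2 * PR (cp x) (cp x) ω)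
          (c5.add c6) (c3.const_mul 2), E2_add μ J _ _ c5 c6, E2_const_mul] at h
  simp only [E2_PR] at h
  nlinarith

/-! ### normalised quantities -/

/-- `⟨sin θ_z sin θ_w⟩` -/
noncomputable def Gn (J : V → V → ℝ) (z w : V) : ℝ :=
  II μ J (fun θ => sq z θ * sq w θ) / II μ J fun _ => 1

/-- `⟨cos θ_z⟩` -/
noncomputable def mn (J : V → V → ℝ) (z : V) : ℝ := II μ J (cp z) / II μ J fun _ => 1

lemma Gn_self_nonneg (J : V → V → ℝ) (z : V) : 0 ≤ Gn μ J z z := by
  unfold Gn
  apply div_nonneg _ (II_pos μ J).le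
  unfold II
  apply integral_nonneg
  intro θ
  exact mul_nonneg (Real.exp_pos _).le (mul_self_nonneg _)

lemma Gn_comm (J : V → V → ℝ) (z w : V) : Gn μ J z w = Gn μ J w z := by
  unfold Gn
  congr 2
  funext θ
  ring

lemma mn_nonneg (hμ : ∀ x, Nice (μ x)) (J : V → V → ℝ) (hJ : ∀ x j, 0 ≤ J x j) (z : V) :
    0 ≤ mn μ J z :=
  div_nonneg (II_cp_nonneg μ hμ J hJ z) (II_pos μ J).le

lemma mn_sq_ge (hμ : ∀ x, Nice (μ x)) (J : V → V → ℝ) (hJ : ∀ x j, 0 ≤ J x j) (z : V) :
    1 - 2 * Gn μ J z z ≤ mn μ J z ^ 2 := by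
  have hZ := II_pos μ J
  have h := II_m_sq_ge μ hμ J hJ z
  unfold mn Gn
  rw [div_pow, le_div_iff₀ (by positivity)]
  have : (1 - 2 * ((II μ J fun θ => sq z θ * sq z θ) / II μ J fun _ => 1))
      * (II μ J fun _ => 1) ^ 2 = (II μ J fun _ => 1) ^ 2
        - 2 * (II μ J fun _ => 1) * II μ J (fun θ => sq z θ * sq z θ) := by
    field_simp
  rw [this]
  exact h

lemma mn_sq_le (J : V → V → ℝ) (z : V) : mn μ J z ^ 2 ≤ 1 - Gn μ J z z := by
  have hZ := II_pos μ J
  have h := II_m_sq_le μ J z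
  have h2 := II_pp_add μ J z
  unfold mn Gn
  rw [div_pow, div_le_iff₀ (by positivity)]
  have : (1 - ((II μ J fun θ => sq z θ * sq z θ) / II μ J fun _ => 1))
      * (II μ J fun _ => 1) ^ 2 = (II μ J fun _ => 1) *
        ((II μ J fun _ => 1) - II μ J (fun θ => sq z θ * sq z θ)) := by
    field_simp
  rw [this]
  rw [← h2] at h ⊢
  linarith

theorem key_n (hμ : ∀ x, Nice (μ x)) (J : V → V → ℝ) (hJ : ∀ x j, 0 ≤ J x j) (z : V) :
    ∑ x, ∑ j, J x j * (mn μ J j * Gn μ J z x - mn μ J x * Gn μ J z j) ^ 2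
      ≤ 2 * Gn μ J z z := by
  have hZ := II_pos μ J
  have h := key μ hμ J hJ z (fun x j => mn μ J j * Gn μ J z x - mn μ J x * Gn μ J z j) (by
    intro x j
    unfold mn Gn
    field_simp)
  have h2 : II μ J (fun θ => sq z θ * sq z θ) = (II μ J fun _ => 1) * Gn μ J z z := by
    unfold Gn
    field_simp
  rw [h2] at h
  have h3 : (II μ J fun _ => 1) * (∑ x, ∑ j, J x j * (mn μ J j * Gn μ J z x
      - mn μ J x * Gn μ J z j) ^ 2) ≤ (II μ J fun _ => 1) * (2 * Gn μ J z z) := by
    linarith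
  exact le_of_mul_le_mul_left h3 hZ

/-! ### pinning -/

lemma ae_pin (y : V) (hy : μ y = Measure.dirac 0) : ∀ᵐ θ ∂(Measure.pi μ), θ y = 0 := by
  have h := (measurePreserving_eval μ y)
  have h2 : ∀ᵐ t ∂(μ y), t = 0 := by
    rw [hy, ae_dirac_eq]
    exact Filter.eventually_pure.2 rfl
  exact h.quasiMeasurePreserving.ae h2

lemma II_congr_pin (y : V) (hy : μ y = Measure.dirac 0) (J : V → V → ℝ) (f g : (V → T) → ℝ)
    (h : ∀ θ : V → T, θ y = 0 → f θ = g θ) : II μ J f = II μ J g := by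
  unfold II
  apply integral_congr_ae
  filter_upwards [ae_pin μ y hy] with θ hθ
  rw [h θ hθ]

lemma mn_pin (y : V) (hy : μ y = Measure.dirac 0) (J : V → V → ℝ) : mn μ J y = 1 := by
  unfold mn
  rw [II_congr_pin μ y hy J (cp y) (fun _ => 1) (by intro θ hθ; simp [cp, hθ])]
  exact div_self (II_pos μ J).ne'

lemma Gn_pin (y : V) (hy : μ y = Measure.dirac 0) (J : V → V → ℝ) (z : V) :
    Gn μ J z y = 0 := by
  unfold Gn
  rw [II_congr_pin μ y hy J (fun θ => sq z θ * sq y θ) (fun _ => 0)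
    (by intro θ hθ; simp [sq, hθ])]
  simp [II]

end Pool.Agent.helper71.XY
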