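import Mathlib
import Pool.Agent.helper71.XY.Ineq2
import Pool.Agent.helper36.IsingRes

/-!
# The bootstrap argument for the pinned planar model
-/

open MeasureTheory ComplexConjugate
open scoped ComplexOrder ENNReal

namespace Pool.Agent.helper71.XY

attribute [local instance] fact2pi

open Pool.Agent.helper36.IsingDefs Pool.Agent.helper36.IsingRes

variable {V : Type} [Fintype V] [DecidableEq V]

/-- couplings: `β` on the edges of `G`, and `H` from the pinned vertex to every vertex -/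
noncomputable def JH (G : SimpleGraph V) [DecidableRel G.Adj] (β : ℝ) (y : V) (H : ℝ)
    (x j : V) : ℝ :=
  β * (if G.Adj x j then 1 else 0) + H * ((if x = y then 1 else 0) + (if j = y then 1 else 0))

lemma JH_nonneg (G : SimpleGraph V) [DecidableRel G.Adj] {β H : ℝ} (hβ : 0 ≤ β) (hH : 0 ≤ H)
    (y x j : V) : 0 ≤ JH G β y H x j := by
  unfold JH
  apply add_nonneg
  · apply mul_nonneg hβ
    split_ifs <;> norm_num
  · apply mul_nonneg hH
    split_ifs <;> norm_num

variable (μ : V → Measure T) [∀ x, IsProbabilityMeasure (μ x)]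

lemma continuous_II (G : SimpleGraph V) [DecidableRel G.Adj] (β : ℝ) (y : V)
    {f : (V → T) → ℝ} (hf : Continuous f) :
    Continuous fun H : ℝ => II μ (JH G β y H) f := by
  have h1 : Continuous (Function.uncurry fun (H : ℝ) (θ : V → T) => W (JH G β y H) θ * f θ) := by
    apply Continuous.mul
    · change Continuous fun p : ℝ × (V → T) => W (JH G β y p.1) p.2
      unfold W JH
      have := continuous_e
      fun_prop
    · exact hf.comp continuous_snd
  have h2 := continuous_parametric_integral_of_continuous (μ := Measure.pi μ) h1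
    (s := Set.univ) isCompact_univ
  simpa [Measure.restrict_univ, II] using h2

lemma continuous_Gn (G : SimpleGraph V) [DecidableRel G.Adj] (β : ℝ) (y z : V) :
    Continuous fun H : ℝ => Gn μ (JH G β y H) z z := by
  unfold Gn
  apply Continuous.div
  · exact continuous_II μ G β y ((continuous_sq z).mul (continuous_sq z))
  · exact continuous_II μ G β y continuous_const
  · intro H
    exact (II_pos μ _).ne'

lemma apriori_H (hμ : ∀ x, Nice (μ x)) (G : SimpleGraph V) [DecidableRel G.Adj] {β H : ℝ}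
    (hβ : 0 ≤ β) (hH : 0 ≤ H) (y z : V) (hy : μ y = Measure.dirac 0) :
    H * Gn μ (JH G β y H) z z ≤ 2 := by
  set J := JH G β y H with hJdef
  have hJ : ∀ x j, 0 ≤ J x j := JH_nonneg G hβ hH y
  have hk := key_n μ hμ J hJ z
  have h0 := Gn_self_nonneg μ J z
  have h1 : J z y * (mn μ J y * Gn μ J z z - mn μ J z * Gn μ J z y) ^ 2
      ≤ ∑ x, ∑ j, J x j * (mn μ J j * Gn μ J z x - mn μ J x * Gn μ J z j) ^ 2 := by
    have h2 : ∀ x j, 0 ≤ J x j * (mn μ J j * Gn μ J z x - mn μ J x * Gn μ J z j) ^ 2 :=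
      fun x j => mul_nonneg (hJ x j) (sq_nonneg _)
    calc J z y * (mn μ J y * Gn μ J z z - mn μ J z * Gn μ J z y) ^ 2
        ≤ ∑ j, J z j * (mn μ J j * Gn μ J z z - mn μ J z * Gn μ J z j) ^ 2 :=
          Finset.single_le_sum (f := fun j => J z j *
            (mn μ J j * Gn μ J z z - mn μ J z * Gn μ J z j) ^ 2) (fun j _ => h2 z j)
            (Finset.mem_univ y)
      _ ≤ _ := Finset.single_le_sum (f := fun x => ∑ j, J x j *
            (mn μ J j * Gn μ J z x - mn μ J x * Gn μ J z j) ^ 2)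
            (fun x _ => Finset.sum_nonneg fun j _ => h2 x j) (Finset.mem_univ z)
  rw [mn_pin μ y hy, Gn_pin μ y hy] at h1
  have h3 : H ≤ J z y := by
    rw [hJdef]
    unfold JH
    have h4 : (0 : ℝ) ≤ β * (if G.Adj z y then 1 else 0) := by
      apply mul_nonneg hβ
      split_ifs <;> norm_num
    have h5 : H ≤ H * ((if z = y then (1 : ℝ) else 0) + (if y = y then 1 else 0)) := by
      rw [if_pos rfl]
      have : (0 : ℝ) ≤ if z = y then (1 : ℝ) else 0 := by split_ifs <;> norm_num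
      nlinarith
    linarith
  rcases h0.eq_or_lt with h6 | h6
  · rw [← h6]
    norm_num
  · have h7 : H * Gn μ J z z ^ 2 ≤ J z y * Gn μ J z z ^ 2 :=
      mul_le_mul_of_nonneg_right h3 (sq_nonneg _)
    have h8 : (H * Gn μ J z z) * Gn μ J z z ≤ 2 * Gn μ J z z := by
      calc (H * Gn μ J z z) * Gn μ J z z = H * Gn μ J z z ^ 2 := by ring
        _ ≤ J z y * Gn μ J z z ^ 2 := h7
        _ = J z y * (1 * Gn μ J z z - mn μ J z * 0) ^ 2 := by ring
        _ ≤ _ := h1
        _ ≤ _ := hk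
    exact le_of_mul_le_mul_right h8 h6

/-- If all `G_zz` are at most `1/6`, then they obey a resistance bound. -/
lemma step (hμ : ∀ x, Nice (μ x)) (G : SimpleGraph V) [DecidableRel G.Adj]
    (hconn : G.Connected) (hV : Nontrivial V) (M : ℝ) (hM : 0 ≤ M)
    (hG : greenMax G ≤ ENNReal.ofReal M) {β H : ℝ}
    (hβ : 0 < β) (hH : 0 ≤ H) (y z : V) (hy : μ y = Measure.dirac 0)
    (hsmall : ∀ w, Gn μ (JH G β y H) w w ≤ 1 / 6) :
    β * Gn μ (JH G β y H) z z ≤ 9 / 4 * M * mn μ (JH G β y H) z ^ 2 := by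
  set J := JH G β y H with hJdef
  have hJ : ∀ x j, 0 ≤ J x j := JH_nonneg G hβ.le hH y
  have hk := key_n μ hμ J hJ z
  have h0 := Gn_self_nonneg μ J z
  have hm2 : ∀ x, 2 / 3 ≤ mn μ J x ^ 2 := by
    intro x
    have h1 := mn_sq_ge μ hμ J hJ x
    have h2 := hsmall x
    linarith
  have hm0 : ∀ x, 0 < mn μ J x := by
    intro x
    have h1 := mn_nonneg μ hμ J hJ x
    rcases h1.eq_or_lt with h2 | h2
    · have := hm2 x
      rw [← h2] at this
      norm_num at this
    · exact h2
  set u : V → ℝ := fun x => Gn μ J z x / mn μ J x with hu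
  have hd := dirichlet G hconn hV M hM hG z y u
  have huy : u y = 0 := by
    simp only [hu, Gn_pin μ y hy, zero_div]
  have hterm : ∀ x j, β * (4 / 9) * (if G.Adj x j then (u x - u j) ^ 2 else 0)
      ≤ J x j * (mn μ J j * Gn μ J z x - mn μ J x * Gn μ J z j) ^ 2 := by
    intro x j
    have h1 : mn μ J j * Gn μ J z x - mn μ J x * Gn μ J z j
        = (mn μ J x * mn μ J j) * (u x - u j) := by
      simp only [hu]
      have h2 := (hm0 x).ne'
      have h3 := (hm0 j).ne'
      field_simp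
    rw [h1, mul_pow, mul_pow]
    have h4 : 4 / 9 ≤ mn μ J x ^ 2 * mn μ J j ^ 2 := by
      have := mul_le_mul (hm2 x) (hm2 j) (by norm_num) (sq_nonneg _)
      linarith
    have h5 : β * (if G.Adj x j then 1 else 0) ≤ J x j := by
      rw [hJdef]
      unfold JH
      have : (0 : ℝ) ≤ H * ((if x = y then 1 else 0) + (if j = y then 1 else 0)) := by
        apply mul_nonneg hH
        split_ifs <;> norm_num
      linarith
    by_cases hadj : G.Adj x j
    · rw [if_pos hadj] at h5 ⊢
      have h6 : 4 / 9 * (u x - u j) ^ 2 ≤ mn μ J x ^ 2 * mn μ J j ^ 2 * (u x - u j) ^ 2 :=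
        mul_le_mul_of_nonneg_right h4 (sq_nonneg _)
      calc β * (4 / 9) * (u x - u j) ^ 2 = β * (4 / 9 * (u x - u j) ^ 2) := by ring
        _ ≤ J x j * (mn μ J x ^ 2 * mn μ J j ^ 2 * (u x - u j) ^ 2) :=
          mul_le_mul (by linarith) h6 (by positivity) (hJ x j)
    · rw [if_neg hadj, mul_zero]
      exact mul_nonneg (hJ x j) (by positivity)
  have hen : β * (4 / 9) * (2 * energy G u) ≤ 2 * Gn μ J z z := by
    refine le_trans ?_ hk
    have h1 : β * (4 / 9) * (2 * energy G u)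
        = ∑ x, ∑ j, β * (4 / 9) * (if G.Adj x j then (u x - u j) ^ 2 else 0) := by
      have h2 : 2 * energy G u = ∑ x, ∑ j, if G.Adj x j then (u x - u j) ^ 2 else 0 := by
        unfold energy
        rw [mul_div_cancel₀ _ (by norm_num : (2 : ℝ) ≠ 0)]
        refine Finset.sum_congr rfl fun x _ => ?_
        rw [← Finset.sum_filter]
        apply Finset.sum_congr _ (fun _ _ => rfl)
        ext t; simp
      rw [h2]
      simp only [Finset.mul_sum]
    rw [h1]
    exact Finset.sum_le_sum fun x _ => Finset.sum_le_sum fun j _ => hterm x j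
  rw [huy, sub_zero] at hd
  have hz : Gn μ J z z = u z * mn μ J z := by
    simp only [hu]
    rw [div_mul_cancel₀ _ (hm0 z).ne']
  -- `u z ^ 2 ≤ M * energy ≤ M * (9/4) * G_zz / β`
  have hfin : β * u z ^ 2 ≤ 9 / 4 * M * Gn μ J z z := by
    have h1 : β * u z ^ 2 ≤ β * (M * energy G u) := mul_le_mul_of_nonneg_left hd hβ.le
    have h2 : β * energy G u ≤ 9 / 4 * Gn μ J z z := by linarith
    have h3 : M * (β * energy G u) ≤ M * (9 / 4 * Gn μ J z z) :=
      mul_le_mul_of_nonneg_left h2 hM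
    linarith
  rcases h0.eq_or_lt with h6 | h6
  · rw [← h6, mul_zero]
    positivity
  · have huz : 0 < u z := by
      by_contra hcon
      have := mul_nonpos_of_nonpos_of_nonneg (not_lt.1 hcon) (hm0 z).le
      rw [← hz] at this
      linarith
    have h7 : (β * u z) * u z ≤ (9 / 4 * M * mn μ J z) * u z := by
      rw [hz] at hfin
      linarith
    have h8 : β * u z ≤ 9 / 4 * M * mn μ J z := le_of_mul_le_mul_right h7 huz
    calc β * Gn μ J z z = (β * u z) * mn μ J z := by rw [hz]; ring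
      _ ≤ (9 / 4 * M * mn μ J z) * mn μ J z := mul_le_mul_of_nonneg_right h8 (hm0 z).le
      _ = 9 / 4 * M * mn μ J z ^ 2 := by ring

/-- The bootstrap. -/
theorem small (hμ : ∀ x, Nice (μ x)) (G : SimpleGraph V) [DecidableRel G.Adj]
    (hconn : G.Connected) (hV : Nontrivial V) (M : ℝ) (hM : 0 ≤ M)
    (hG : greenMax G ≤ ENNReal.ofReal M) {β : ℝ}
    (hβ : 0 < β) (hβM : 45 / 4 * M < β) (y : V) (hy : μ y = Measure.dirac 0) (z : V) :
    Gn μ (JH G β y 0) z z ≤ 1 / 6 := by
  have hne : (Finset.univ : Finset V).Nonempty := ⟨y, Finset.mem_univ y⟩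
  set g : ℝ → ℝ := fun H => Finset.univ.sup' hne fun z => Gn μ (JH G β y H) z z with hg
  have hgc : Continuous g := by
    apply Continuous.finset_sup'_apply
    intro z _
    exact continuous_Gn μ G β y z
  have hle : ∀ H w, Gn μ (JH G β y H) w w ≤ g H := fun H w =>
    Finset.le_sup' (f := fun z => Gn μ (JH G β y H) z z) (Finset.mem_univ w)
  refine (hle 0 z).trans ?_
  by_contra hcon
  have h0 : 1 / 6 ≤ g 0 := (not_le.1 hcon).le
  have h13 : g 13 ≤ 1 / 6 := by
    apply Finset.sup'_le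
    intro w _
    have := apriori_H μ hμ G hβ.le (by norm_num : (0 : ℝ) ≤ 13) y w hy
    linarith
  obtain ⟨H, hH, hgH⟩ := intermediate_value_Icc' (by norm_num : (0 : ℝ) ≤ 13)
    hgc.continuousOn (show (1 / 6 : ℝ) ∈ Set.Icc (g 13) (g 0) from ⟨h13, h0⟩)
  obtain ⟨w, _, hw⟩ := Finset.exists_mem_eq_sup' hne fun z => Gn μ (JH G β y H) z z
  have hw2 : Gn μ (JH G β y H) w w = 1 / 6 := by
    rw [← hw]; exact hgH
  have hst := step μ hμ G hconn hV M hM hG hβ hH.1 y w hy (fun v => (hle H v).trans hgH.le)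
  have hml := mn_sq_le μ (JH G β y H) w
  rw [hw2] at hst hml
  have : 9 / 4 * M * mn μ (JH G β y H) w ^ 2 ≤ 9 / 4 * M * (1 - 1 / 6) :=
    mul_le_mul_of_nonneg_left hml (by positivity)
  linarith

/-- The magnetisation bound. -/
theorem mn_ge (hμ : ∀ x, Nice (μ x)) (G : SimpleGraph V) [DecidableRel G.Adj]
    (hconn : G.Connected) (hV : Nontrivial V) (M : ℝ) (hM : 0 ≤ M)
    (hG : greenMax G ≤ ENNReal.ofReal M) {β : ℝ}
    (hβ : 0 < β) (hβM : 45 / 4 * M < β) (y : V) (hy : μ y = Measure.dirac 0) (z : V) :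
    1 - 9 * M / (2 * β) ≤ mn μ (JH G β y 0) z := by
  have hJ : ∀ x j, 0 ≤ JH G β y 0 x j := JH_nonneg G hβ.le le_rfl y
  have h1 := step μ hμ G hconn hV M hM hG hβ le_rfl y z hy
    (small μ hμ G hconn hV M hM hG hβ hβM y hy)
  have h2 := mn_sq_ge μ hμ _ hJ z
  have h3 := mn_nonneg μ hμ _ hJ z
  have h4 := mn_sq_le μ (JH G β y 0) z
  have h5 := Gn_self_nonneg μ (JH G β y 0) z
  set m := mn μ (JH G β y 0) z with hm
  set g := Gn μ (JH G β y 0) z z with hg
  have hm1 : m ≤ 1 := by nlinarith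
  have h6 : 1 - 9 * M / (2 * β) * m ^ 2 ≤ m ^ 2 := by
    have h7 : 2 * g ≤ 9 * M / (2 * β) * m ^ 2 := by
      have h8 : 9 * M / (2 * β) * m ^ 2 = 2 * (9 / 4 * M * m ^ 2) / β := by
        field_simp
        ring
      rw [h8, le_div_iff₀ hβ]
      linarith
    linarith
  have h9 : 0 ≤ 9 * M / (2 * β) := by positivity
  have h10 : m ^ 2 ≤ m := by nlinarith
  have h11 : 9 * M / (2 * β) * m ^ 2 ≤ 9 * M / (2 * β) * 1 :=
    mul_le_mul_of_nonneg_left (by nlinarith) h9
  linarith

end Pool.Agent.helper71.XY
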