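import Mathlib
import Pool.Agent.helper36.IsingDefs

/-!
# The spin `O(N)` model on a finite graph

Random walk quantities (`killedProb`, `visits`, `greenMax`) are in
`Pool.Agent.helper36.IsingDefs`.
-/

open MeasureTheory

namespace Pool.Agent.helper71.XY.Defs

/-- the unit sphere of `ℝ^N` -/
abbrev Sph (N : ℕ) : Type := Metric.sphere (0 : EuclideanSpace ℝ (Fin N)) 1

/-- the surface measure on the unit sphere of `ℝ^N` -/
noncomputable abbrev surf (N : ℕ) : Measure (Sph N) :=
  (volume : Measure (EuclideanSpace ℝ (Fin N))).toSphere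

/-- the scalar product of two spins -/
noncomputable def dot {N : ℕ} (s t : Sph N) : ℝ :=
  inner ℝ (s : EuclideanSpace ℝ (Fin N)) (t : EuclideanSpace ℝ (Fin N))

lemma dot_comm {N : ℕ} (s t : Sph N) : dot s t = dot t s := real_inner_comm _ _

variable {V : Type} [Fintype V] [DecidableEq V] (G : SimpleGraph V) [DecidableRel G.Adj]

/-- the sum of `σ_i · σ_j` over the edges `{i,j}` of `G` -/
noncomputable def interaction {N : ℕ} (σ : V → Sph N) : ℝ :=
  ∑ e ∈ G.edgeFinset, Sym2.lift ⟨fun u v => dot (σ u) (σ v), fun u v => dot_comm _ _⟩ e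

/-- the two point function `E_{G,N,β} σ_x · σ_y`: the ratio of the integrals, over the product of
the surface measures, of `σ_x · σ_y exp (β * interaction)` and `exp (β * interaction)` -/
noncomputable def twoPoint (N : ℕ) (β : ℝ) (x y : V) : ℝ :=
  (∫ σ : V → Sph N, dot (σ x) (σ y) * Real.exp (β * interaction G σ)
      ∂(Measure.pi fun _ : V => surf N))
    / ∫ σ : V → Sph N, Real.exp (β * interaction G σ) ∂(Measure.pi fun _ : V => surf N)

end Pool.Agent.helper71.XY.Defs
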