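import Mathlib
import Pool.Agent.helper71.XY.Defs
import Pool.Agent.helper71.XY.Boot

/-!
# From the sphere `S^1` to the circle `ℝ / 2π ℤ`
-/

open MeasureTheory ComplexConjugate
open scoped ComplexOrder ENNReal Pointwise

namespace Pool.Agent.helper71.XY

attribute [local instance] fact2pi

open Defs

/-- the parametrisation of the circle -/
noncomputable def phi (θ : T) : Sph 2 :=
  ⟨Complex.orthonormalBasisOneI.repr (e θ), by
    rw [mem_sphere_zero_iff_norm, LinearIsometryEquiv.norm_map, norm_e]⟩

lemma continuous_phi : Continuous phi := by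
  unfold phi
  apply Continuous.subtype_mk
  exact Complex.orthonormalBasisOneI.repr.continuous.comp continuous_e

lemma dot_phi (a b : T) : dot (phi a) (phi b) = (e a * conj (e b)).re := by
  unfold dot phi
  simp only [LinearIsometryEquiv.inner_map_map]
  rw [Complex.inner]
  simp only [Complex.mul_re, Complex.conj_re, Complex.conj_im]
  ring

lemma phi_surj : Function.Surjective phi := by
  intro s
  set z : ℂ := Complex.orthonormalBasisOneI.repr.symm (s : EuclideanSpace ℝ (Fin 2)) with hz
  have hnz : ‖z‖ = 1 := by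
    rw [hz, LinearIsometryEquiv.norm_map]
    exact mem_sphere_zero_iff_norm.1 s.2
  refine ⟨((Complex.arg z : ℝ) : T), ?_⟩
  apply Subtype.ext
  unfold phi
  simp only
  have he : e ((Complex.arg z : ℝ) : T) = z := by
    rw [e, AddCircle.toCircle_apply_mk, Circle.coe_exp]
    have h1 : 2 * Real.pi / (2 * Real.pi) * Complex.arg z = Complex.arg z := by
      field_simp
    rw [h1]
    have h2 := Complex.norm_mul_exp_arg_mul_I z
    rw [hnz] at h2
    simpa using h2
  rw [he, hz, LinearIsometryEquiv.apply_symm_apply]

/-- rotation of the plane -/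
noncomputable def rotL (a : T) : EuclideanSpace ℝ (Fin 2) ≃ₗᵢ[ℝ] EuclideanSpace ℝ (Fin 2) :=
  Complex.orthonormalBasisOneI.repr.symm.trans
    ((rotation (AddCircle.toCircle a)).trans Complex.orthonormalBasisOneI.repr)

/-- rotation of the circle -/
noncomputable def rotS (a : T) (s : Sph 2) : Sph 2 :=
  ⟨rotL a (s : EuclideanSpace ℝ (Fin 2)), by
    rw [mem_sphere_zero_iff_norm, LinearIsometryEquiv.norm_map]
    exact mem_sphere_zero_iff_norm.1 s.2⟩

lemma rotS_phi (a b : T) : rotS a (phi b) = phi (a + b) := by
  apply Subtype.ext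
  unfold rotS phi rotL
  simp only [LinearIsometryEquiv.trans_apply, LinearIsometryEquiv.symm_apply_apply,
    rotation_apply]
  rw [e_add]
  rfl

lemma continuous_rotS : Continuous fun p : T × Sph 2 => rotS p.1 p.2 := by
  unfold rotS
  apply Continuous.subtype_mk
  have h : (fun p : T × Sph 2 => rotL p.1 (p.2 : EuclideanSpace ℝ (Fin 2)))
      = fun p => Complex.orthonormalBasisOneI.repr
        (e p.1 * Complex.orthonormalBasisOneI.repr.symm (p.2 : EuclideanSpace ℝ (Fin 2))) := by
    funext p
    rfl
  rw [h]
  apply Complex.orthonormalBasisOneI.repr.continuous.comp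
  apply Continuous.mul
  · exact continuous_e.comp continuous_fst
  · exact Complex.orthonormalBasisOneI.repr.symm.continuous.comp
      (continuous_subtype_val.comp continuous_snd)

lemma continuous_rotS' (a : T) : Continuous fun t : Sph 2 => rotS a t := by
  unfold rotS
  apply Continuous.subtype_mk
  exact (rotL a).continuous.comp continuous_subtype_val

lemma surf_rot (a : T) {s : Set (Sph 2)} (hs : MeasurableSet s) :
    surf 2 (rotS a ⁻¹' s) = surf 2 s := by
  have hc : Measurable (rotS a) := (continuous_rotS' a).measurable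
  have hs' : MeasurableSet (rotS a ⁻¹' s) := hc hs
  rw [surf, Measure.toSphere_apply' _ hs', Measure.toSphere_apply' _ hs]
  congr 1
  have hset : (Set.Ioo (0 : ℝ) 1 • ((↑) '' (rotS a ⁻¹' s)) : Set (EuclideanSpace ℝ (Fin 2)))
      = rotL a ⁻¹' (Set.Ioo (0 : ℝ) 1 • ((↑) '' s)) := by
    ext v
    simp only [Set.mem_smul, Set.mem_image, Set.mem_preimage, Set.mem_Ioo]
    constructor
    · rintro ⟨r, hr, _, ⟨t, ht, rfl⟩, rfl⟩
      exact ⟨r, hr, _, ⟨rotS a t, ht, rfl⟩, by simp [rotS]⟩
    · rintro ⟨r, hr, _, ⟨t, ht, rfl⟩, hv⟩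
      refine ⟨r, hr, (rotL a).symm t, ⟨⟨(rotL a).symm t, ?_⟩, ?_, rfl⟩, ?_⟩
      · rw [mem_sphere_zero_iff_norm, LinearIsometryEquiv.norm_map]
        exact mem_sphere_zero_iff_norm.1 t.2
      · have : rotS a ⟨(rotL a).symm t, by
            rw [mem_sphere_zero_iff_norm, LinearIsometryEquiv.norm_map]
            exact mem_sphere_zero_iff_norm.1 t.2⟩ = t := by
          apply Subtype.ext
          simp [rotS]
        rw [this]
        exact ht
      · apply (rotL a).injective
        rw [map_smul, LinearIsometryEquiv.apply_symm_apply]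
        exact hv
  rw [hset]
  exact (LinearIsometryEquiv.measurePreserving (rotL a)).measure_preimage_emb
    (rotL a).toHomeomorph.measurableEmbedding _

/-- the total surface -/
noncomputable def cS : ℝ≥0∞ := surf 2 Set.univ

lemma cS_ne_top : cS ≠ ⊤ := measure_ne_top _ _

lemma cS_ne_zero : cS ≠ 0 := by
  unfold cS
  rw [Ne, Measure.measure_univ_eq_zero]
  exact Measure.toSphere_ne_zero _

lemma surf_eq : surf 2 = Measure.map phi (cS • haar) := by
  ext s hs
  rw [Measure.map_apply continuous_phi.measurable hs, Measure.smul_apply, smul_eq_mul]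
  have h1 : surf 2 s = ∫⁻ a : T, ∫⁻ t : Sph 2, s.indicator 1 (rotS a t) ∂(surf 2) ∂haar := by
    have : ∀ a : T, ∫⁻ t : Sph 2, s.indicator 1 (rotS a t) ∂(surf 2) = surf 2 s := by
      intro a
      have hc : Measurable (rotS a) := (continuous_rotS' a).measurable
      have h2 : (fun t : Sph 2 => s.indicator (1 : Sph 2 → ℝ≥0∞) (rotS a t))
          = (rotS a ⁻¹' s).indicator 1 := by
        funext t
        rfl
      rw [h2, lintegral_indicator_one (hc hs), surf_rot a hs]
    simp_rw [this]
    rw [lintegral_const, measure_univ, mul_one]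
  rw [h1, lintegral_lintegral_swap]
  · have h3 : ∀ t : Sph 2, ∫⁻ a : T, s.indicator 1 (rotS a t) ∂haar = haar (phi ⁻¹' s) := by
      intro t
      obtain ⟨b, rfl⟩ := phi_surj t
      have h4 : (fun a : T => s.indicator (1 : Sph 2 → ℝ≥0∞) (rotS a (phi b)))
          = fun a : T => (phi ⁻¹' s).indicator 1 (a + b) := by
        funext a
        rw [rotS_phi]
        rfl
      rw [h4, lintegral_add_right_eq_self (fun a : T => (phi ⁻¹' s).indicator (1 : T → ℝ≥0∞) a) b,
        lintegral_indicator_one (continuous_phi.measurable hs)]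
    simp_rw [h3]
    rw [lintegral_const, mul_comm]
    rfl
  · apply Measurable.aemeasurable
    exact (measurable_one.indicator hs).comp continuous_rotS.measurable

variable {V : Type} [Fintype V] [DecidableEq V]

lemma pi_surf (f : (V → Sph 2) → ℝ) (hf : Continuous f) :
    ∫ σ, f σ ∂(Measure.pi fun _ : V => surf 2)
      = (cS.toReal) ^ (Fintype.card V) *
        ∫ θ : V → T, f (fun x => phi (θ x)) ∂(Measure.pi fun _ : V => haar) := by
  have hfin : IsFiniteMeasure (cS • haar) := by
    constructor
    rw [Measure.smul_apply, measure_univ, smul_eq_mul, mul_one]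
    exact cS_ne_top.lt_top
  have hmp : MeasurePreserving phi (cS • haar) (surf 2) :=
    ⟨continuous_phi.measurable, surf_eq.symm⟩
  have h := measurePreserving_pi (fun _ : V => cS • haar) (fun _ : V => surf 2)
    (f := fun _ => phi) fun _ => hmp
  rw [← h.map_eq, integral_map (f := f) h.measurable.aemeasurable hf.aestronglyMeasurable]
  have h2 : Measure.pi (fun _ : V => cS • haar)
      = (cS ^ (Fintype.card V)) • Measure.pi (fun _ : V => haar) := by
    apply Measure.pi_eq
    intro s _
    rw [Measure.smul_apply, Measure.pi_pi, smul_eq_mul]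
    simp only [Measure.smul_apply, smul_eq_mul]
    rw [Finset.prod_mul_distrib, Finset.prod_const, Finset.card_univ]
  rw [h2, integral_smul_measure, ENNReal.toReal_pow, smul_eq_mul]

end Pool.Agent.helper71.XY
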