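import Mathlib
import Pool.Agent.helper71.XY.Sphere

/-!
# Pinning a spin, and the final theorem
-/

open MeasureTheory ComplexConjugate
open scoped ComplexOrder ENNReal

namespace Pool.Agent.helper71.XY

attribute [local instance] fact2pi

open Defs Pool.Agent.helper36.IsingDefs

variable {V : Type} [Fintype V] [DecidableEq V]

/-- the single site measures of the pinned model -/
noncomputable def pinM (y : V) (x : V) : Measure T := if x = y then Measure.dirac 0 else haar

instance (y x : V) : IsProbabilityMeasure (pinM y x) := by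
  unfold pinM
  split_ifs <;> infer_instance

lemma nice_pinM (y x : V) : Nice (pinM y x) := by
  unfold pinM
  split_ifs
  · exact nice_dirac
  · exact nice_haar

lemma pinM_self (y : V) : pinM y y = Measure.dirac 0 := by
  unfold pinM
  rw [if_pos rfl]

/-- gluing the value at `y` with the other values -/
def glue (y : V) (a : T) (r : {x : V // ¬ x = y} → T) (x : V) : T :=
  if h : x = y then a else r ⟨x, h⟩

lemma continuous_glue (y : V) :
    Continuous fun p : T × ({x : V // ¬ x = y} → T) => glue y p.1 p.2 := by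
  apply continuous_pi
  intro x
  unfold glue
  by_cases h : x = y
  · simp only [h, dif_pos]
    exact continuous_fst
  · simp only [h, dif_neg, not_false_iff]
    exact (continuous_apply _).comp continuous_snd

lemma split (ν : V → Measure T) [∀ x, IsProbabilityMeasure (ν x)] (y : V)
    (F : (V → T) → ℝ) (hF : Continuous F) :
    ∫ θ, F θ ∂(Measure.pi ν)
      = ∫ a, (∫ r, F (glue y a r) ∂(Measure.pi fun i : {x // ¬ x = y} => ν i)) ∂(ν y) := by
  have h1 := measurePreserving_piEquivPiSubtypeProd ν (fun x => x = y)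
  have heq : (Subtype.fintype fun x => x = y) = Fintype.subtypeEq y := Subsingleton.elim _ _
  rw [heq] at h1
  have h2 := (measurePreserving_piUnique (fun i : {x // x = y} => ν i)).prod
    (MeasurePreserving.id (Measure.pi fun i : {x // ¬ x = y} => ν i))
  have h3 := h2.comp h1
  have hF' : Continuous fun p : T × ({x : V // ¬ x = y} → T) => F (glue y p.1 p.2) :=
    hF.comp (continuous_glue y)
  have h4 : ∫ θ, F θ ∂(Measure.pi ν)
      = ∫ p, F (glue y p.1 p.2) ∂((ν y).prod (Measure.pi fun i : {x // ¬ x = y} => ν i)) := by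
    have h5 : ((ν y).prod (Measure.pi fun i : {x // ¬ x = y} => ν i))
        = Measure.map _ (Measure.pi ν) := h3.map_eq.symm
    rw [h5, integral_map (f := fun p : T × ({x : V // ¬ x = y} → T) => F (glue y p.1 p.2))
      h3.measurable.aemeasurable hF'.aestronglyMeasurable]
    congr 1
    funext θ
    congr 1
    funext x
    unfold glue
    by_cases h : x = y
    · subst h
      simp
      rfl
    · simp [h]
  rw [h4, integral_prod]
  exact integrable_of_continuous _ hF'

lemma unpin (y : V) (F : (V → T) → ℝ) (hF : Continuous F)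
    (hinv : ∀ (a : T) (θ : V → T), F (fun x => θ x + a) = F θ) :
    ∫ θ, F θ ∂(Measure.pi fun _ : V => haar) = ∫ θ, F θ ∂(Measure.pi (pinM y)) := by
  rw [split (fun _ => haar) y F hF, split (pinM y) y F hF]
  have h1 : (fun i : {x // ¬ x = y} => pinM y i) = fun _ => haar := by
    funext i
    unfold pinM
    rw [if_neg i.2]
  rw [h1, pinM_self, integral_dirac]
  have h2 : ∀ a : T, ∫ r, F (glue y a r) ∂(Measure.pi fun _ : {x // ¬ x = y} => haar)
      = ∫ r, F (glue y 0 r) ∂(Measure.pi fun _ : {x // ¬ x = y} => haar) := by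
    intro a
    rw [← integral_add_right_eq_self (μ := Measure.pi fun _ : {x // ¬ x = y} => haar)
      (fun r => F (glue y a r)) (fun _ => a)]
    congr 1
    funext r
    rw [← hinv a (glue y 0 r)]
    congr 1
    funext x
    unfold glue
    by_cases h : x = y
    · simp [h]
    · simp [h]
  simp_rw [h2]
  rw [integral_const]
  simp

lemma sum_edges (G : SimpleGraph V) [DecidableRel G.Adj] (f : V → V → ℝ)
    (hf : ∀ u v, f u v = f v u) :
    ∑ e ∈ G.edgeFinset, Sym2.lift ⟨f, hf⟩ e
      = (1 / 2) * ∑ x, ∑ j, (if G.Adj x j then 1 else 0) * f x j := by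
  have h1 : ∑ d : G.Dart, Sym2.lift ⟨f, hf⟩ d.edge
      = 2 * ∑ e ∈ G.edgeFinset, Sym2.lift ⟨f, hf⟩ e := by
    rw [← Finset.sum_fiberwise_of_maps_to (s := Finset.univ) (t := G.edgeFinset)
      (g := fun d : G.Dart => d.edge) (fun d _ => by simp [SimpleGraph.mem_edgeFinset,
        d.edge_mem]), Finset.mul_sum]
    refine Finset.sum_congr rfl fun e he => ?_
    have h2 : ∀ d ∈ Finset.univ.filter (fun d : G.Dart => d.edge = e),
        Sym2.lift ⟨f, hf⟩ d.edge = Sym2.lift ⟨f, hf⟩ e := by
      intro d hd
      rw [(Finset.mem_filter.1 hd).2]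
    rw [Finset.sum_congr rfl h2, Finset.sum_const,
      G.dart_edge_fiber_card e (SimpleGraph.mem_edgeFinset.1 he)]
    simp
  have h3 : ∑ d : G.Dart, Sym2.lift ⟨f, hf⟩ d.edge
      = ∑ x, ∑ j, (if G.Adj x j then 1 else 0) * f x j := by
    have h4 : ∑ x, ∑ j, (if G.Adj x j then (1 : ℝ) else 0) * f x j
        = ∑ p ∈ (Finset.univ : Finset (V × V)).filter (fun p => G.Adj p.1 p.2), f p.1 p.2 := by
      rw [Finset.sum_filter, Fintype.sum_prod_type]
      refine Finset.sum_congr rfl fun x _ => Finset.sum_congr rfl fun j _ => ?_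
      split_ifs <;> simp
    rw [h4]
    apply Finset.sum_bij (fun d _ => d.toProd)
    · intro d _
      simp [d.adj]
    · intro d _ d' _ h
      exact SimpleGraph.Dart.ext _ _ h
    · rintro ⟨a, b⟩ hp
      simp only [Finset.mem_filter, Finset.mem_univ, true_and] at hp
      exact ⟨⟨(a, b), hp⟩, Finset.mem_univ _, rfl⟩
    · intro d _
      rfl
  linarith

lemma interaction_phi (G : SimpleGraph V) [DecidableRel G.Adj] (θ : V → T) :
    interaction G (fun x => phi (θ x))
      = (1 / 2) * ∑ x, ∑ j, (if G.Adj x j then 1 else 0) * (e (θ x) * conj (e (θ j))).re := by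
  unfold Defs.interaction
  rw [sum_edges]
  simp only [dot_phi]

lemma continuous_interaction (G : SimpleGraph V) [DecidableRel G.Adj] :
    Continuous fun σ : V → Sph 2 => Defs.interaction G σ := by
  unfold Defs.interaction
  apply continuous_finsetSum
  intro e _
  induction e using Sym2.ind with
  | _ u v =>
    simp only [Sym2.lift_mk]
    unfold dot
    fun_prop

lemma continuous_dot (x y : V) : Continuous fun σ : V → Sph 2 => dot (σ x) (σ y) := by
  unfold dot
  fun_prop

lemma weight_phi (G : SimpleGraph V) [DecidableRel G.Adj] (β : ℝ) (y : V) (θ : V → T) :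
    Real.exp (β * Defs.interaction G (fun x => phi (θ x))) = W (JH G β y 0) θ := by
  rw [interaction_phi]
  unfold W JH
  congr 1
  simp only [zero_mul, add_zero, Finset.mul_sum]
  refine Finset.sum_congr rfl fun x _ => Finset.sum_congr rfl fun j _ => ?_
  ring

theorem twoPoint_eq (G : SimpleGraph V) [DecidableRel G.Adj] (β : ℝ) (x y : V) :
    Defs.twoPoint G 2 β x y = mn (pinM y) (JH G β y 0) x := by
  unfold Defs.twoPoint mn II
  have hw : Continuous fun σ : V → Sph 2 => Real.exp (β * Defs.interaction G σ) :=
    Real.continuous_exp.comp (continuous_const.mul (continuous_interaction G))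
  rw [pi_surf (fun σ => dot (σ x) (σ y) * Real.exp (β * Defs.interaction G σ))
      ((continuous_dot x y).mul hw),
    pi_surf (fun σ => Real.exp (β * Defs.interaction G σ)) hw]
  have hc : cS.toReal ^ Fintype.card V ≠ 0 :=
    pow_ne_zero _ (ENNReal.toReal_ne_zero.2 ⟨cS_ne_zero, cS_ne_top⟩)
  rw [mul_div_mul_left _ _ hc]
  simp only [weight_phi G β y, dot_phi, mul_one]
  have hWinv : ∀ (a : T) (θ : V → T), W (JH G β y 0) (fun x => θ x + a) = W (JH G β y 0) θ := by
    intro a θ
    unfold W
    congr 2
    refine Finset.sum_congr rfl fun x _ => Finset.sum_congr rfl fun j _ => ?_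
    rw [e_add, e_add, map_mul]
    have : e (θ x) * e a * (conj (e (θ j)) * conj (e a))
        = (e (θ x) * conj (e (θ j))) * (e a * conj (e a)) := by ring
    rw [this, e_mul_conj, mul_one]
  have he : Continuous fun θ : V → T => (e (θ x) * conj (e (θ y))).re := by
    have := continuous_e
    fun_prop
  rw [unpin y (fun θ => (e (θ x) * conj (e (θ y))).re * W (JH G β y 0) θ)
      (he.mul (continuous_W _)), unpin y (fun θ => W (JH G β y 0) θ) (continuous_W _) hWinv]
  · congr 1
    apply integral_congr_ae
    filter_upwards [ae_pin (pinM y) y (pinM_self y)] with θ hθ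
    rw [hθ, e_zero, map_one, mul_one, mul_comm]
    rfl
  · intro a θ
    simp only [hWinv]
    congr 2
    rw [e_add, e_add, map_mul]
    have : e (θ x) * e a * (conj (e (θ y)) * conj (e a))
        = (e (θ x) * conj (e (θ y))) * (e a * conj (e a)) := by ring
    rw [this, e_mul_conj, mul_one]

theorem main (G : SimpleGraph V) [DecidableRel G.Adj]
    (hconn : G.Connected) (hcard : 2 ≤ Fintype.card V) (M : ℝ) (hM : 0 < M)
    (hG : greenMax G ≤ ENNReal.ofReal M) (β : ℝ) (hβM : 45 / 4 * M < β) (x y : V) :
    1 - 9 * M / (2 * β) ≤ Defs.twoPoint G 2 β x y := by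
  rw [twoPoint_eq]
  have hV : Nontrivial V := Fintype.one_lt_card_iff_nontrivial.1 (by omega)
  exact mn_ge (pinM y) (nice_pinM y) G hconn hV M hM.le hG (by nlinarith) hβM y
    (pinM_self y) x

end Pool.Agent.helper71.XY
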